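import Pool.Agent.Lib.HS.R.Spec

set_option autoImplicit false

/-! Module `Apx` of `HS/R`: approximation of continuous functions with compact support by test
functions. The extension by zero is multiplied by a cutoff function and smoothed. -/

namespace Pool.Agent.A54.HR

open MeasureTheory Filter Topology Set
open scoped ContDiff ComplexConjugate UpperHalfPlane MatrixGroups ENNReal
open Pool.Agent.A54.Half (H0)
open Pool.Agent.A54.Sq (TestP)
open Pool.Agent.A54.Hp

noncomputable section

namespace ApxM

/-- a product of a continuous function supported in `U` and a function continuous on `U` -/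
lemma cont_mul {U : Set ℂ} (hU : IsOpen U) {χ g : ℂ → ℝ} (hχ : Continuous χ)
    (hs : tsupport χ ⊆ U) (hg : ContinuousOn g U) : Continuous (fun z => χ z * g z) := by
  rw [continuous_iff_continuousAt]
  intro z
  by_cases hz : z ∈ U
  · exact hχ.continuousAt.mul (hg.continuousAt (hU.mem_nhds hz))
  · have hz' : z ∉ tsupport χ := fun h => hz (hs h)
    have h0 : (fun _ => (0 : ℝ)) =ᶠ[𝓝 z] (fun w => χ w * g w) := by
      have := notMem_tsupport_iff_eventuallyEq.mp hz'
      filter_upwards [this] with w hw
      simp [hw]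
    exact continuousAt_const.congr h0

lemma ext_cont {h : ℍ → ℝ} (hc : Continuous h) : ContinuousOn (ext h) H0 := by
  intro z hz
  have h1 : ContinuousAt (fun w : ℂ => UpperHalfPlane.ofComplex w) z :=
    (UpperHalfPlane.contMDiffAt_ofComplex (n := 0) hz).continuousAt
  exact (hc.continuousAt.comp h1).continuousWithinAt

end ApxM

theorem stmtApx : StmtApx := by
  intro h hc hs
  have hK : IsCompact ((fun z : ℍ => (z : ℂ)) '' tsupport h) :=
    hs.isCompact.image UpperHalfPlane.continuous_coe
  have hKH : ((fun z : ℍ => (z : ℂ)) '' tsupport h) ⊆ H0 := by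
    rintro _ ⟨z, _, rfl⟩
    exact z.im_pos
  obtain ⟨ζ, hζ, h01, h1⟩ := exists_cutoff hK Half.isOpen_H0 hKH
  refine ⟨ζ, ⟨hζ, fun z => (h01 z).1⟩, ?_⟩
  intro ε hε
  have hcont : Continuous (fun z => ζ z * ext h z) :=
    ApxM.cont_mul Half.isOpen_H0 hζ.smooth.continuous hζ.sub (ApxM.ext_cont hc)
  have hcs : HasCompactSupport (fun z => ζ z * ext h z) := hζ.cpt.mul_right
  have huc : UniformContinuous (fun z => ζ z * ext h z) :=
    hcs.uniformContinuous_of_continuous hcont
  obtain ⟨g, hg, hd⟩ := huc.exists_contDiff_dist_le hε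
  refine ⟨fun z => ζ z * g z, hζ.mul_right hg, ?_⟩
  intro z
  have hext : ext h (z : ℂ) = h z := Half.ext_coe h z
  have e1 : h z = ζ z * (ζ z * ext h z) := by
    by_cases hz : z ∈ tsupport h
    · have : ζ (z : ℂ) = 1 := h1.self_of_nhdsSet _ ⟨z, hz, rfl⟩
      rw [this, hext]; ring
    · have : h z = 0 := image_eq_zero_of_notMem_tsupport hz
      rw [hext, this]; ring
  have h2 := (hd (z : ℂ)).le
  rw [Real.dist_eq, abs_sub_comm] at h2
  calc |h z - ζ z * g z| = |ζ z * (ζ z * ext h z - g z)| := by
        congr 1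
        conv_lhs => rw [e1]
        ring
    _ = ζ z * |ζ z * ext h z - g z| := by
        rw [abs_mul, abs_of_nonneg (h01 z).1]
    _ ≤ ζ z * ε := mul_le_mul_of_nonneg_left h2 (h01 z).1
    _ = ε * ζ z := by ring

end

end Pool.Agent.A54.HR
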