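import Pool.Agent.Lib.HS.R.Spec
import Pool.Agent.Lib.MP_a54f13_nt.Comp
import Pool.Agent.Lib.MP_a54f13_nt.Half2

/-!
# Package `HS/R`, module Cmp: weak compactness on the half-plane
-/

set_option autoImplicit false

namespace Pool.Agent.A54.HR

open MeasureTheory Filter Topology Set
open scoped ContDiff ComplexConjugate UpperHalfPlane MatrixGroups ENNReal InnerProductSpace
open Pool.Agent.A54.Half (H0)
open Pool.Agent.A54.Sq (TestP)
open Pool.Agent.A54.Hp

noncomputable section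

namespace CmpM

/-- the weight -/
lemma exists_weight (K : ℕ → Set ℍ) (hK : ∀ j, MeasurableSet (K j)) (C : ℕ → ℝ) :
    ∃ w : ℍ → ℝ, Measurable w ∧ (∀ z, 0 ≤ w z) ∧ (∀ m, ∃ c : ℝ, 0 < c ∧ ∀ z ∈ K m, c ≤ w z) ∧
      ∀ F : ℍ → ℂ, Measurable F → (∀ j, ∫⁻ z in K j, ‖F z‖ₑ ^ 2 ≤ ENNReal.ofReal (C j)) →
        ∫⁻ z, ‖(w z : ℂ) * F z‖ₑ ^ 2 ≤ 1 := by
  set B : ℕ → ℝ≥0∞ := fun j => (2 : ℝ≥0∞)⁻¹ ^ (j + 1) * (ENNReal.ofReal (C j) + 1)⁻¹ with hB
  have hB0 : ∀ j, B j ≠ 0 := by
    intro j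
    apply mul_ne_zero
    · exact pow_ne_zero _ (by simp)
    · simp
  have hB1 : ∀ j, B j ≤ (2 : ℝ≥0∞)⁻¹ ^ (j + 1) := by
    intro j
    calc B j ≤ (2 : ℝ≥0∞)⁻¹ ^ (j + 1) * 1 := by
          apply mul_le_mul_right
          rw [ENNReal.inv_le_one]
          exact le_add_self
      _ = _ := mul_one _
  have hsum : ∑' j, (2 : ℝ≥0∞)⁻¹ ^ (j + 1) = 1 := by
    rw [ENNReal.tsum_geometric_add_one, ENNReal.one_sub_inv_two, inv_inv]
    exact ENNReal.inv_mul_cancel (by simp) (by simp)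
  set W : ℍ → ℝ≥0∞ := fun z => ∑' j, (K j).indicator (fun _ => B j) z with hW
  have hWm : Measurable W := Measurable.tsum fun j => measurable_const.indicator (hK j)
  have hW1 : ∀ z, W z ≤ 1 := by
    intro z
    rw [← hsum]
    apply ENNReal.tsum_le_tsum
    intro j
    refine le_trans ?_ (hB1 j)
    exact indicator_le_self' (fun _ _ => zero_le) z
  have hWt : ∀ z, W z ≠ ⊤ := fun z => ne_top_of_le_ne_top ENNReal.one_ne_top (hW1 z)
  refine ⟨fun z => Real.sqrt (W z).toReal, hWm.ennreal_toReal.sqrt, fun z => Real.sqrt_nonneg _,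
    fun m => ?_, fun F hF hC => ?_⟩
  · have hBm : 0 < (B m).toReal :=
      ENNReal.toReal_pos (hB0 m) (ne_top_of_le_ne_top (by simp) (hB1 m))
    refine ⟨Real.sqrt (B m).toReal, Real.sqrt_pos.2 hBm, fun z hz => ?_⟩
    apply Real.sqrt_le_sqrt
    apply ENNReal.toReal_mono (hWt z)
    calc B m = (K m).indicator (fun _ => B m) z := by rw [indicator_of_mem hz]
      _ ≤ W z := ENNReal.le_tsum m
  · have h1 : ∀ z, ‖((Real.sqrt (W z).toReal : ℝ) : ℂ) * F z‖ₑ ^ 2 = W z * ‖F z‖ₑ ^ 2 := by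
      intro z
      rw [enorm_mul, mul_pow]
      congr 1
      rw [← ofReal_norm, Complex.norm_real, Real.norm_eq_abs,
        abs_of_nonneg (Real.sqrt_nonneg _), ← ENNReal.ofReal_pow (Real.sqrt_nonneg _),
        Real.sq_sqrt ENNReal.toReal_nonneg, ENNReal.ofReal_toReal (hWt z)]
    simp only [h1]
    have h2 : ∀ z, W z * ‖F z‖ₑ ^ 2 = ∑' j, (K j).indicator (fun z => B j * ‖F z‖ₑ ^ 2) z := by
      intro z
      rw [hW, ← ENNReal.tsum_mul_right]
      congr 1
      funext j
      by_cases hz : z ∈ K j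
      · simp [indicator_of_mem hz]
      · simp [indicator_of_notMem hz]
    simp only [h2]
    have hFm : Measurable fun z => ‖F z‖ₑ ^ 2 := hF.enorm.pow_const 2
    rw [lintegral_tsum fun j => ((hFm.const_mul (B j)).indicator (hK j)).aemeasurable]
    rw [← hsum]
    apply ENNReal.tsum_le_tsum
    intro j
    rw [lintegral_indicator (hK j), lintegral_const_mul _ hFm]
    calc B j * ∫⁻ z in K j, ‖F z‖ₑ ^ 2 ≤ B j * ENNReal.ofReal (C j) := by gcongr; exact hC j
      _ ≤ (2 : ℝ≥0∞)⁻¹ ^ (j + 1) * ((ENNReal.ofReal (C j) + 1)⁻¹ * (ENNReal.ofReal (C j) + 1)) := by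
          rw [hB, mul_assoc]
          gcongr
          exact le_self_add
      _ = _ := by
          rw [ENNReal.inv_mul_cancel (by simp) (by simp), mul_one]


lemma lint {F : ℍ → ℝ} (hF : Continuous F) {K : Set ℍ} (hK : IsCompact K) :
    ∫⁻ z in K, ‖(F z : ℂ)‖ₑ ^ 2 = ENNReal.ofReal (∫ z in K, F z ^ 2) := by
  have h1 : IntegrableOn (fun z => F z ^ 2) K := (hF.pow 2).continuousOn.integrableOn_compact hK
  rw [ofReal_integral_eq_lintegral_ofReal h1 (Eventually.of_forall fun z => sq_nonneg _)]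
  refine lintegral_congr fun z => ?_
  rw [← ofReal_norm, ← ENNReal.ofReal_pow (norm_nonneg _), Complex.norm_real, Real.norm_eq_abs,
    sq_abs]

/-- a set without mass -/
lemma null {ρ : ℍ → ℝ} (hρ : Measurable ρ) {K : Set ℍ} (hK : MeasurableSet K)
    (hi : IntegrableOn ρ K) (h : 0 ≤ ∫ z in {z | ρ z < 0} ∩ K, ρ z) :
    ∀ᵐ z : ℍ, z ∈ K → 0 ≤ ρ z := by
  set A : Set ℍ := {z | ρ z < 0} ∩ K with hA
  have hAm : MeasurableSet A := (measurableSet_lt hρ measurable_const).inter hK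
  have hiA : IntegrableOn (fun z => -ρ z) A := (hi.mono_set inter_subset_right).neg
  have h0 : 0 ≤ᵐ[volume.restrict A] fun z => -ρ z := by
    rw [EventuallyLE, ae_restrict_iff' hAm]
    refine Eventually.of_forall fun z hz => ?_
    have : ρ z < 0 := hz.1
    change 0 ≤ -ρ z
    linarith
  have h1 : ∫ z in A, -ρ z = 0 := by
    have h2 : 0 ≤ ∫ z in A, -ρ z := integral_nonneg_of_ae h0
    rw [integral_neg] at h2 ⊢
    linarith
  have h3 := (setIntegral_eq_zero_iff_of_nonneg_ae h0 hiA).1 h1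
  rw [EventuallyEq, ae_restrict_iff' hAm] at h3
  filter_upwards [h3] with z hz hzK
  by_contra hneg
  have h4 : ρ z < 0 := not_le.1 hneg
  have h5 := hz ⟨h4, hzK⟩
  change -ρ z = 0 at h5
  linarith

end CmpM

open CmpM in
theorem stmtCmp : StmtCmp := by
  intro F hFc hF0 hb
  let E : CompactExhaustion ℍ := default
  have hK1 : ∀ j, IsCompact (E j) := E.isCompact
  choose C hC using fun j => hb (E j) (hK1 j)
  obtain ⟨w, hw1, hw2, hw3, hw4⟩ := exists_weight (fun j => E j) (fun j => (hK1 j).measurableSet) C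
  choose c hc0 hc using hw3
  have hbd : ∀ i, ∫⁻ z, ‖(w z : ℂ) * (F i z : ℂ)‖ₑ ^ 2 ≤ 1 := fun i =>
    hw4 _ (Complex.measurable_ofReal.comp (hFc i).measurable) fun j => by
      rw [lint (hFc i) (hK1 j)]
      exact ENNReal.ofReal_le_ofReal (hC j i)
  have hmeas : ∀ i, AEStronglyMeasurable (fun z => (w z : ℂ) * (F i z : ℂ))
      (volume : Measure ℍ) := fun i =>
    ((Complex.measurable_ofReal.comp hw1).mul
      (Complex.measurable_ofReal.comp (hFc i).measurable)).aestronglyMeasurable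
  have hnorm : ∀ i, eLpNorm (fun z => (w z : ℂ) * (F i z : ℂ)) 2 (volume : Measure ℍ) ≤ 1 := by
    intro i
    rw [eLpNorm_eq_lintegral_rpow_enorm_toReal (by norm_num) (by norm_num)]
    simp only [ENNReal.toReal_ofNat, ENNReal.rpow_ofNat]
    calc _ ≤ (1 : ℝ≥0∞) ^ (1 / (2 : ℝ)) := ENNReal.rpow_le_rpow (hbd i) (by norm_num)
      _ = 1 := ENNReal.one_rpow _
  have hmem : ∀ i, MemLp (fun z => (w z : ℂ) * (F i z : ℂ)) 2 (volume : Measure ℍ) := fun i =>
    ⟨hmeas i, (hnorm i).trans_lt ENNReal.one_lt_top⟩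
  have hfact : Fact ((2 : ℝ≥0∞) ≠ ⊤) := ⟨by norm_num⟩
  obtain ⟨σ, y, hσ, hy⟩ := Comp.exists_subseq (E := Lp ℂ 2 (volume : Measure ℍ))
    (fun _ i => (hmem i).toLp _) (fun _ => 1) (by
      intro n i
      rw [Lp.norm_toLp]
      calc (eLpNorm _ 2 volume).toReal ≤ (1 : ℝ≥0∞).toReal :=
            ENNReal.toReal_mono ENNReal.one_ne_top (hnorm i)
        _ = 1 := ENNReal.toReal_one)
  set ρ₀ : ℍ → ℝ := fun z => (y 0 z).re / w z with hρdef
  have hρm : Measurable ρ₀ :=
    (Complex.measurable_re.comp (Lp.stronglyMeasurable (y 0)).measurable).div hw1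
  have hρ2 : ∀ L : Set ℍ, IsCompact L → MemLp ρ₀ 2 (volume.restrict L) := by
    intro L hL
    obtain ⟨m, hm⟩ := E.exists_superset_of_isCompact hL
    have h1 : MemLp (y 0) 2 (volume.restrict L) := (Lp.memLp (y 0)).restrict L
    refine MemLp.of_le_mul h1 (c := (c m)⁻¹) hρm.aestronglyMeasurable ?_
    rw [ae_restrict_iff' hL.measurableSet]
    refine Eventually.of_forall fun z hz => ?_
    have h2 := hc m z (hm hz)
    rw [hρdef, Real.norm_eq_abs, abs_div, abs_of_nonneg (hw2 z), div_eq_inv_mul]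
    exact mul_le_mul (inv_anti₀ (hc0 m) h2) (Complex.abs_re_le_norm _) (abs_nonneg _)
      (inv_nonneg.2 (hc0 m).le)
  have hρi : ∀ L : Set ℍ, IsCompact L → IntegrableOn ρ₀ L := by
    intro L hL
    have hf : IsFiniteMeasure (volume.restrict L) :=
      ⟨by rw [Measure.restrict_apply_univ]; exact hL.measure_lt_top⟩
    exact (hρ2 L hL).integrable one_le_two
  have hlim : ∀ (v : ℍ → ℝ) (D : Set ℍ) (A : ℝ), Measurable v → IsCompact D →
      (∀ z, z ∉ D → v z = 0) → (∀ z, |v z| ≤ A) →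
      Tendsto (fun i => ∫ z, v z * F (σ i) z) atTop (𝓝 (∫ z, v z * ρ₀ z)) := by
    intro v D A hvm hD hv0 hvA
    obtain ⟨m, hm⟩ := E.exists_superset_of_isCompact hD
    have hA : 0 ≤ A := by
      obtain ⟨z⟩ : Nonempty ℍ := inferInstance
      exact (abs_nonneg _).trans (hvA z)
    have hv : MemLp (fun z => ((v z / w z : ℝ) : ℂ)) 2 (volume : Measure ℍ) := by
      have h1 : MemLp (D.indicator fun _ => A / c m) 2 (volume : Measure ℍ) :=
        memLp_indicator_const 2 hD.measurableSet _ (Or.inr hD.measure_lt_top.ne)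
      refine h1.mono (Complex.measurable_ofReal.comp (hvm.div hw1)).aestronglyMeasurable ?_
      refine Eventually.of_forall fun z => ?_
      by_cases hz : z ∈ D
      · rw [indicator_of_mem hz, Complex.norm_real, Real.norm_eq_abs, Real.norm_eq_abs, abs_div,
          abs_of_nonneg (hw2 z), abs_of_nonneg (div_nonneg hA (hc0 m).le)]
        exact div_le_div₀ hA (hvA z) (hc0 m) (hc m z (hm hz))
      · rw [hv0 z hz]
        simp
    have h2 := hy 0 (hv.toLp _)
    have h3 := (Complex.continuous_re.tendsto _).comp h2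
    have h4 : ∀ x : Lp ℂ 2 (volume : Measure ℍ), (⟪x, hv.toLp _⟫_ℂ).re =
        ∫ z, v z * ((x z).re / w z) := by
      intro x
      rw [L2.inner_def]
      have h5 := integral_re (L2.integrable_inner (𝕜 := ℂ) x (hv.toLp _))
      change _ = (∫ z, ⟪x z, (hv.toLp _) z⟫_ℂ).re at h5
      rw [← h5]
      apply integral_congr_ae
      filter_upwards [hv.coeFn_toLp] with z hz
      rw [hz, RCLike.inner_apply]
      change (((v z / w z : ℝ) : ℂ) * conj (x z)).re = _
      rw [Complex.re_ofReal_mul, Complex.conj_re]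
      ring
    have h5 : ∀ i, (⟪(hmem (σ i)).toLp _, hv.toLp _⟫_ℂ).re = ∫ z, v z * F (σ i) z := by
      intro i
      rw [h4]
      apply integral_congr_ae
      filter_upwards [(hmem (σ i)).coeFn_toLp] with z hz
      rw [hz, Complex.re_ofReal_mul, Complex.ofReal_re]
      by_cases hzD : z ∈ D
      · have h6 : w z ≠ 0 := ((hc0 m).trans_le (hc m z (hm hzD))).ne'
        rw [mul_div_cancel_left₀ _ h6]
      · rw [hv0 z hzD, zero_mul, zero_mul]
    have h6 : (fun i => ∫ z, v z * F (σ i) z) =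
        Complex.re ∘ fun i => ⟪(hmem (σ i)).toLp _, hv.toLp _⟫_ℂ := by
      funext i
      exact (h5 i).symm
    rw [h6]
    have h7 : (∫ z, v z * ρ₀ z) = (⟪y 0, hv.toLp _⟫_ℂ).re := (h4 (y 0)).symm
    rw [h7]
    exact h3
  -- nonnegativity
  have hpos : ∀ᵐ z : ℍ, 0 ≤ ρ₀ z := by
    have h1 : ∀ j, ∀ᵐ z : ℍ, z ∈ E j → 0 ≤ ρ₀ z := by
      intro j
      refine null hρm (hK1 j).measurableSet (hρi _ (hK1 j)) ?_
      set A : Set ℍ := {z | ρ₀ z < 0} ∩ E j with hA
      have hAm : MeasurableSet A :=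
        (measurableSet_lt hρm measurable_const).inter (hK1 j).measurableSet
      have h2 := hlim (A.indicator fun _ => 1) (E j) 1 (measurable_const.indicator hAm) (hK1 j)
        (fun z hz => indicator_of_notMem (fun h => hz h.2) _) (fun z => by
          by_cases hz : z ∈ A
          · rw [indicator_of_mem hz]; simp
          · rw [indicator_of_notMem hz]; simp)
      have h3 : (∫ z, A.indicator (fun _ => (1 : ℝ)) z * ρ₀ z) = ∫ z in A, ρ₀ z := by
        rw [← integral_indicator hAm]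
        refine integral_congr_ae (Eventually.of_forall fun z => ?_)
        by_cases hz : z ∈ A
        · simp [indicator_of_mem hz]
        · simp [indicator_of_notMem hz]
      rw [← h3]
      refine ge_of_tendsto' h2 fun i => integral_nonneg fun z => mul_nonneg ?_ (hF0 _ _)
      exact indicator_nonneg (fun _ _ => zero_le_one) z
    rw [← ae_all_iff] at h1
    filter_upwards [h1] with z hz
    obtain ⟨j, hj⟩ : ∃ j, z ∈ E j := E.exists_mem z
    exact hz j hj
  have hae : (fun z => max (ρ₀ z) 0) =ᵐ[volume] ρ₀ := by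
    filter_upwards [hpos] with z hz
    exact max_eq_left hz
  refine ⟨σ, fun z => max (ρ₀ z) 0, hσ, ⟨hρm.max measurable_const, fun z => le_max_right _ _,
    fun D hD => ?_⟩, fun φ hφ => ?_⟩
  · have h1 : IntegrableOn (fun z => ρ₀ z ^ 2) D := (hρ2 D hD).integrable_sq
    refine h1.congr (ae_restrict_of_ae ?_)
    filter_upwards [hae] with z hz
    rw [hz]
  · obtain ⟨A, hA⟩ := hφ.cpt.exists_bound_of_continuous hφ.smooth.continuous
    have h1 := hlim (fun z => φ z) (UpperHalfPlane.coe ⁻¹' tsupport φ) A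
      (hφ.smooth.continuous.comp UpperHalfPlane.continuous_coe).measurable
      (Half2.isCompact_pre hφ.cpt.isCompact hφ.sub)
      (fun z hz => image_eq_zero_of_notMem_tsupport hz) (fun z => hA z)
    have h2 : (∫ z : ℍ, φ z * max (ρ₀ z) 0) = ∫ z : ℍ, φ z * ρ₀ z := by
      apply integral_congr_ae
      filter_upwards [hae] with z hz
      rw [hz]
    rw [h2]
    exact h1

end

end Pool.Agent.A54.HR
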