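import Pool.Agent.Lib.HS.R.Spec
import Pool.Agent.Lib.MP_a54f13_nt.Hp.Core
import Pool.Agent.Lib.MP_a54f13_nt.Sq.Main
import Pool.Agent.Lib.MP_a54f13_nt.Dyn.Main

/-!
# Package `HS/R`: assembly

helper39. The first four moments of single sequences, in terms of the weak limit of the second moment.
-/

set_option autoImplicit false

namespace Pool.Agent.A54.HR

open MeasureTheory Filter Topology Set
open scoped ContDiff ComplexConjugate UpperHalfPlane MatrixGroups ENNReal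
open Pool.Agent.A54.Half (H0)
open Pool.Agent.A54.Sq (TestP)
open Pool.Agent.A54.Hp

noncomputable section

namespace FinM

/-- a density is locally integrable -/
lemma rho_int {ρ : ℍ → ℝ} (hρ : Rho ρ) {D : Set ℍ} (hD : IsCompact D) : IntegrableOn ρ D := by
  have h1 : IntegrableOn (fun _ : ℍ => (1 : ℝ)) D := continuous_const.continuousOn.integrableOn_compact hD
  refine Integrable.mono' (h1.add (hρ.sq D hD)) hρ.meas.aestronglyMeasurable (Eventually.of_forall fun z => ?_)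
  rw [Real.norm_eq_abs, abs_of_nonneg (hρ.nonneg z)]
  show ρ z ≤ 1 + ρ z ^ 2
  nlinarith [sq_nonneg (ρ z - 1), hρ.nonneg z]

lemma int_test {ρ : ℍ → ℝ} (hρ : ∀ D : Set ℍ, IsCompact D → IntegrableOn ρ D) {φ : ℂ → ℝ} (hφ : TestR H0 φ) :
    Integrable fun z : ℍ => φ z * ρ z := by
  set D : Set ℍ := UpperHalfPlane.coe ⁻¹' tsupport φ with hD
  have hDc : IsCompact D := by
    rw [hD, UpperHalfPlane.isOpenEmbedding_coe.isInducing.isCompact_preimage_iff]
    · exact hφ.cpt.isCompact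
    · intro z hz
      exact ⟨⟨z, hφ.sub hz⟩, rfl⟩
  have h0 : ∀ z : ℍ, z ∉ D → φ z * ρ z = 0 := by
    intro z hz
    rw [image_eq_zero_of_notMem_tsupport (fun h => hz h), zero_mul]
  rw [← integrableOn_iff_integrable_of_support_subset (s := D)
    (fun z hz => by by_contra h; exact hz (h0 z h))]
  obtain ⟨B, hB⟩ := hφ.smooth.continuous.bounded_above_of_compact_support hφ.cpt
  exact (hρ D hDc).bdd_mul (hφ.smooth.continuous.comp UpperHalfPlane.continuous_coe).aestronglyMeasurable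
    (Eventually.of_forall fun z => hB z)

/-- from nonnegative to general test functions -/
lemma wc_of_pos {F : ℕ → ℍ → ℝ} {G : ℍ → ℝ} (hF : ∀ i, Continuous (F i))
    (hG : ∀ D : Set ℍ, IsCompact D → IntegrableOn G D)
    (h : ∀ φ : ℂ → ℝ, TestP H0 φ → Tendsto (fun i => ∫ z : ℍ, φ z * F i z) atTop (𝓝 (∫ z : ℍ, φ z * G z))) :
    Wc F G := by
  intro φ hφ
  obtain ⟨B, hB⟩ := hφ.smooth.continuous.bounded_above_of_compact_support hφ.cpt
  obtain ⟨ζ, hζ, hζ01, hζ1⟩ := exists_cutoff hφ.cpt.isCompact Half.isOpen_H0 hφ.sub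
  have hB0 : 0 ≤ B := (norm_nonneg _).trans (hB 0)
  have hP : TestP H0 (fun z => φ z + B * ζ z) := by
    refine ⟨⟨hφ.smooth.add (contDiff_const.mul hζ.smooth), hφ.cpt.add (hζ.cpt.mul_left (f := fun _ => B)), ?_⟩, ?_⟩
    · refine (tsupport_add (f := φ) (g := fun z => B * ζ z)).trans (union_subset hφ.sub ?_)
      exact (tsupport_mul_subset_right (f := fun _ => B) (g := ζ)).trans hζ.sub
    · intro z
      by_cases hz : z ∈ tsupport φ
      · have h1 : ζ z = 1 := hζ1.self_of_nhdsSet z hz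
        have h2 := (abs_le.mp (hB z)).1
        rw [h1]
        linarith
      · rw [image_eq_zero_of_notMem_tsupport hz, zero_add]
        exact mul_nonneg hB0 (hζ01 z).1
  have hζP : TestP H0 ζ := ⟨hζ, fun z => (hζ01 z).1⟩
  have h1 := (h _ hP).sub ((h ζ hζP).const_mul B)
  have hFi : ∀ i (φ : ℂ → ℝ), TestR H0 φ → Integrable fun z : ℍ => φ z * F i z := fun i φ hφ =>
    int_test (fun D hD => (hF i).continuousOn.integrableOn_compact hD) hφ
  have e1 : (∫ z : ℍ, (φ z + B * ζ z) * G z) - B * ∫ z : ℍ, ζ z * G z = ∫ z : ℍ, φ z * G z := by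
    rw [← integral_const_mul, ← integral_sub (int_test hG hP.test) ((int_test hG hζ).const_mul B)]
    congr 1
    funext z
    ring
  have e2 : ∀ i, (∫ z : ℍ, (φ z + B * ζ z) * F i z) - B * ∫ z : ℍ, ζ z * F i z = ∫ z : ℍ, φ z * F i z := by
    intro i
    rw [← integral_const_mul, ← integral_sub (hFi i _ hP.test) ((hFi i _ hζ).const_mul B)]
    congr 1
    funext z
    ring
  rw [← e1]
  exact h1.congr e2

end FinM

open FinM in
/-- the first four moments along a sequence whose second moments converge weakly -/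
theorem moments (hLow : StmtLow) (hSrf : StmtSrf) (f : ℕ → ℍ → ℝ) (t : ℕ → ℝ)
    (hf : ∀ i, IsHeckeMaass (f i) (t i)) (ht : Tendsto t atTop atTop)
    (hB : ∀ D : Set ℍ, IsCompact D → ∃ C : ℝ, ∀ i, ∫ z in D, f i z ^ 4 ≤ C) (ρ : ℍ → ℝ) (hρ : Rho ρ)
    (hw : Wc (fun i z => f i z ^ 2) ρ)
    (hup : ∀ φ : ℂ → ℝ, TestP H0 φ → ∀ δ : ℝ, 0 < δ → ∀ᶠ i in atTop,
      ∫ z : ℍ, φ z * f i z ^ 4 ≤ 3 * (∫ z : ℍ, φ z * ρ z ^ 2) + δ) (ψ : ℍ → ℝ) (hψ : TestX ψ)
    (n : ℕ) (hn1 : 1 ≤ n) (hn4 : n ≤ 4) :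
    Tendsto (fun i => ∫ z in ModularGroup.fdo, ψ z * f i z ^ n) atTop
      (𝓝 (1 / √(2 * Real.pi) * (∫ x : ℝ, x ^ n * Real.exp (-x ^ 2 / 2)) *
        ∫ z in ModularGroup.fdo, ψ z * √(ρ z) ^ n)) := by
  have hC : 1 / √(2 * Real.pi) * (∫ x : ℝ, x ^ n * Real.exp (-x ^ 2 / 2)) = Av.Cgau n := rfl
  rw [hC]
  have hcont : ∀ i, Continuous (f i) := fun i => Av.FdM.form_cont (hf i)
  interval_cases n
  · rw [Av.GmM.odd (n := 1) ⟨0, rfl⟩, zero_mul]
    simpa only [pow_one] using Av.first_moment hf ht ψ hψ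
  · rw [Av.GmM.two, one_mul]
    have e : ∀ z, √(ρ z) ^ 2 = ρ z := fun z => Real.sq_sqrt (hρ.nonneg z)
    simp only [e]
    exact hSrf _ ρ (fun i => (hcont i).pow 2) (fun i z => sq_nonneg _) hρ.meas hρ.nonneg
      (fun D hD => rho_int hρ hD) hw ψ hψ
  · rw [Av.GmM.odd (n := 3) ⟨1, rfl⟩, zero_mul]
    exact Dyn.finalCube hf ht hB ψ hψ
  · rw [Av.GmM.four]
    have e : ∀ z, √(ρ z) ^ 4 = ρ z ^ 2 := by
      intro z
      rw [show (4 : ℕ) = 2 * 2 by norm_num, pow_mul, Real.sq_sqrt (hρ.nonneg z)]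
    simp only [e]
    have h3 : ∀ D : Set ℍ, IsCompact D → IntegrableOn (fun z => 3 * ρ z ^ 2) D := fun D hD =>
      (hρ.sq D hD).const_mul 3
    have hw4 : Wc (fun i z => f i z ^ 4) (fun z => 3 * ρ z ^ 2) := by
      refine wc_of_pos (fun i => (hcont i).pow 4) h3 fun φ hφ => ?_
      have e3 : ∫ z : ℍ, φ z * (3 * ρ z ^ 2) = 3 * ∫ z : ℍ, φ z * ρ z ^ 2 := by
        rw [← integral_const_mul]
        congr 1
        funext z
        ring
      rw [e3, Metric.tendsto_nhds]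
      intro ε hε
      filter_upwards [hup φ hφ (ε / 2) (by positivity),
        hLow f t hf ht hB ρ hρ hw φ hφ (ε / 2) (by positivity)] with i h1 h2
      rw [Real.dist_eq, abs_lt]
      constructor <;> linarith
    have h4 := hSrf (fun i z => f i z ^ 4) (fun z => 3 * ρ z ^ 2) (fun i => (hcont i).pow 4)
      (fun i z => Even.pow_nonneg ⟨2, rfl⟩ _) ((hρ.meas.pow_const 2).const_mul 3)
      (fun z => by positivity) h3 hw4 ψ hψ
    have e5 : 3 * ∫ z in ModularGroup.fdo, ψ z * ρ z ^ 2 = ∫ z in ModularGroup.fdo, ψ z * (3 * ρ z ^ 2) := by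
      rw [← integral_const_mul]
      congr 1
      funext z
      ring
    rw [e5]
    exact h4

open FinM in
/-- **the theorem for single sequences, with a density**, in terms of an abstract condition on the eigenvalues -/
theorem coreR (hPk : StmtPk) (hHe : StmtHeF) (hCus : StmtCus) (hXb : StmtXb) (hBdd : StmtBdd)
    (hCmp : StmtCmp) (hUpr : StmtUpr) (hFou : StmtFou) (hLow : StmtLow) (hSrf : StmtSrf)
    {c : ℝ} (hc : 0 < c) (hc1 : c ≤ 1)
    {Gh : (ℕ → ℝ) → ℝ → Prop} (hC : CoreC c Gh) (f : ℕ → ℍ → ℝ) (t : ℕ → ℝ) (l : ℕ → ℕ → ℝ)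
    (hf : ∀ i, IsHeckeMaass (f i) (t i)) (ht : Tendsto t atTop atTop)
    (hl : ∀ i, ∀ p : ℕ, p.Prime → Av.IsHk (f i) p (√p * l i p))
    (hG : ∃ (W : ℝ) (i₀ : ℕ), 0 < W ∧ ∀ i, i₀ ≤ i → ∀ w : ℝ, t i ^ (-(1 / 2 + c / 1600)) ≤ w →
      w ≤ W → Gh (l i) w) :
    (∀ D : Set ℍ, IsCompact D → ∃ C : ℝ, ∀ i, ∫ z in D, f i z ^ 4 ≤ C) ∧
    ∃ (σ : ℕ → ℕ) (ρ : ℍ → ℝ), StrictMono σ ∧ Rho ρ ∧
      ∀ ψ : ℍ → ℝ, TestX ψ → ∀ n : ℕ, 1 ≤ n → n ≤ 4 →
      Tendsto (fun i => ∫ z in ModularGroup.fdo, ψ z * f (σ i) z ^ n) atTop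
        (𝓝 (1 / √(2 * Real.pi) * (∫ x : ℝ, x ^ n * Real.exp (-x ^ 2 / 2)) *
          ∫ z in ModularGroup.fdo, ψ z * √(ρ z) ^ n)) := by
  classical
  obtain ⟨W, i₀, hW, hG⟩ := hG
  obtain ⟨v, hv, hD⟩ := CrM.data hC hHe hCus W hW
  have hd0 : 0 < c / 800 := by positivity
  have hd8 : c / 800 ≤ 1 / 8 := by linarith
  have hδ : 0 < c / 1600 := by positivity
  obtain ⟨K₁, hK₁⟩ := hXb c hc hc1
  obtain ⟨K₂, hK₂⟩ := hUpr c hc hc1
  obtain ⟨C₀, t₀, hC₀, ht₀, hP⟩ := hPk (c / 800) hd0 hd8 (max K₁ K₂)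
  obtain ⟨i₁, hi₁⟩ := (ht.eventually_ge_atTop t₀).exists_forall_of_atTop
  set m := max i₀ i₁ with hm
  have hbig : ∀ i, m ≤ i → t₀ ≤ t i := fun i hi => hi₁ _ ((le_max_right i₀ i₁).trans hi)
  -- the data for `i ≥ m`
  have hex : ∀ i, m ≤ i → ∃ (N : ℕ) (b : ℤ → ℝ), Dt c v C₀ (max K₁ K₂) (l i) (f i) (t i) N b := by
    intro i hi
    obtain ⟨N, b, hKN, hpk⟩ := hP (t i) (hbig i hi)
    exact ⟨N, b, hD C₀ (max K₁ K₂) (l i) (f i) (t i) N b (hf _) (ht₀.trans (hbig i hi)) (hl _) hpk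
      (hG i ((le_max_left i₀ i₁).trans hi))⟩
  choose! N b hdt using hex
  -- bounded fourth moments
  have hBd : ∀ D : Set ℍ, IsCompact D → ∃ C : ℝ, ∀ i, ∫ z in D, f i z ^ 4 ≤ C := by
    intro K hK
    have ht' : Tendsto (fun j => t (j + m)) atTop atTop := (tendsto_add_atTop_iff_nat m).mpr ht
    have hρ : ∀ j, 0 < rh c (t (j + m)) ∧ rh c (t (j + m)) ≤ t (j + m) ^ (-(1 / 2 + c / 1600)) := by
      intro j
      exact ⟨Real.rpow_pos_of_pos (by linarith [hbig (j + m) (Nat.le_add_left _ _)]) _, le_refl _⟩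
    have h1 := hBdd (fun j => f (j + m)) (fun j => t (j + m)) (fun j => rh c (t (j + m))) (c / 1600)
      (fun j => hf _) ht' hδ hρ (fun φ hφ => by
        obtain ⟨C, t₁, _, _, hX⟩ := (hK₁ (max K₁ K₂) (le_max_left _ _) C₀ hC₀ v hv φ hφ).2
        exact ⟨C, (ht'.eventually_ge_atTop t₁).mono fun j hj =>
          hX _ _ _ _ _ (hdt (j + m) (Nat.le_add_left _ _)) hj⟩) K hK
    obtain ⟨C, hC'⟩ := h1
    refine ⟨max C (∑ i ∈ Finset.range m, |∫ z in K, f i z ^ 4|), fun i => ?_⟩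
    by_cases hi : i < m
    · refine le_trans (le_abs_self _) (le_trans ?_ (le_max_right _ _))
      exact Finset.single_le_sum (f := fun i => |∫ z in K, f i z ^ 4|) (fun _ _ => abs_nonneg _)
        (Finset.mem_range.mpr hi)
    · have h2 := hC' (i - m)
      simp only [Nat.sub_add_cancel (not_lt.mp hi)] at h2
      exact h2.trans (le_max_left _ _)
  refine ⟨hBd, ?_⟩
  -- the subsequence
  have hcont : ∀ i, Continuous (f i) := fun i => Av.FdM.form_cont (hf i)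
  obtain ⟨σ, ρ, hσ, hρ, hw⟩ := hCmp (fun j z => f (j + m) z ^ 2) (fun j => (hcont _).pow 2)
    (fun j z => sq_nonneg _) (fun D hD => by
      obtain ⟨C, hC⟩ := hBd D hD
      refine ⟨C, fun j => ?_⟩
      refine le_trans (le_of_eq ?_) (hC (j + m))
      congr 1
      funext z
      ring)
  have hσm : StrictMono fun j => σ j + m := fun a b hab => Nat.add_lt_add_right (hσ hab) m
  have htσ : Tendsto (fun j => t (σ j + m)) atTop atTop := ht.comp hσm.tendsto_atTop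
  refine ⟨fun j => σ j + m, ρ, hσm, hρ, ?_⟩
  have hle : ∀ j, m ≤ σ j + m := fun j => Nat.le_add_left _ _
  have h3 := hK₂ (max K₁ K₂) (le_max_right _ _) C₀ hC₀ v hv (fun j => l (σ j + m)) (fun j => f (σ j + m))
    (fun j => t (σ j + m)) (fun j => N (σ j + m)) (fun j => b (σ j + m)) (fun j => hdt _ (hle j)) htσ ρ hρ hw
  have h4 := hFou (fun j => f (σ j + m)) (fun j => t (σ j + m)) (fun j => rh c (t (σ j + m))) (c / 1600)
    (fun j => hf _) htσ hδ (fun j => ⟨Real.rpow_pos_of_pos (by linarith [hbig _ (hle j)]) _, le_refl _⟩) ρ hρ h3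
  exact fun ψ hψ n hn1 hn4 => moments hLow hSrf (fun j => f (σ j + m)) (fun j => t (σ j + m)) (fun j => hf _) htσ
    (fun D hD => by
      obtain ⟨C, hC⟩ := hBd D hD
      exact ⟨C, fun j => hC _⟩) ρ hρ hw h4 ψ hψ n hn1 hn4

end

end Pool.Agent.A54.HR
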