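import Pool.Agent.Lib.HS.R.Spec
import Pool.Agent.Lib.MP_a54f13_nt.Sq.Bd

/-!
# Package `HS/R`, module `Fou`: upper bound for the fourth moment
-/

set_option autoImplicit false

namespace Pool.Agent.A54.HR

open MeasureTheory Filter Topology Set
open scoped ContDiff ComplexConjugate UpperHalfPlane MatrixGroups ENNReal
open Pool.Agent.A54.Half (H0 ff)
open Pool.Agent.A54.Sq (TestP)
open Pool.Agent.A54.Pl (Ed)
open Pool.Agent.A54.Hp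

noncomputable section

theorem stmtFou (hTwr : Sq.StmtTwr) (hSg : Sq.StmtSg) (hInt : StmtInt) : StmtFou := by
  intro f t r δ₀ hf ht hδ₀ hr ρ _ H φ hφ δ hδ
  have hrl : Tendsto r atTop (𝓝 0) := by
    have h1 : Tendsto (fun i => t i ^ (-(1 / 2 + δ₀))) atTop (𝓝 0) :=
      (tendsto_rpow_neg_atTop (by linarith : 0 < 1 / 2 + δ₀)).comp ht
    exact squeeze_zero (fun i => (hr i).1.le) (fun i => (hr i).2) h1
  -- the weight
  set φ₁ : ℂ → ℝ := fun z => φ z * (z.im)⁻¹ ^ 2 with hφ₁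
  have hφ₁T : TestP H0 φ₁ :=
    ⟨Half.testR_weight subset_rfl hφ.test, fun z => mul_nonneg (hφ.nonneg z) (by positivity)⟩
  obtain ⟨χ, V, hχ, h01, hV, hVH, h1, hsub⟩ := Half.setup hφ.test
  have hφV : TestR V φ := ⟨hφ.test.smooth, hφ.test.cpt, hsub⟩
  have hφ₁V : TestP V φ₁ := ⟨Half.testR_weight hVH hφV, hφ₁T.nonneg⟩
  obtain ⟨c, hc⟩ := hTwr χ V hχ h01 hV hVH h1
  have hδ'0 : 0 < min δ₀ (1 / 2) := lt_min hδ₀ (by norm_num)
  obtain ⟨ζ, CS, κ, hζ, hCS, hκ, hS⟩ := hSg V hV hVH c (min δ₀ (1 / 2)) hδ'0 (min_le_right _ _) φ₁ hφ₁V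
  have hζH : TestP H0 ζ := ⟨⟨hζ.test.smooth, hζ.test.cpt, hζ.test.sub.trans hVH⟩, hζ.nonneg⟩
  obtain ⟨ρ₁, hρ₁, hd1⟩ := Pl.FBM.discs hφ₁V.test.cpt.isCompact hV hφ₁V.test.sub
  obtain ⟨ρ₂, hρ₂, hd2⟩ := Pl.FBM.discs hζ.test.cpt.isCompact hV hζ.test.sub
  choose G hG1 hG2 hG3 using fun i => hc (f i) (t i) (hf i)
  set B : ℝ := (∫ z : ℍ, (ζ z * (z : ℂ).im ^ 2) * ρ z ^ 2) + 1 with hB
  -- the error term
  have herr : ∀ᶠ i in atTop, CS * t i ^ (-κ) * (1 + B) ≤ δ / 2 := by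
    have h2 : Tendsto (fun i => CS * t i ^ (-κ) * (1 + B)) atTop (𝓝 (CS * 0 * (1 + B))) :=
      (((tendsto_rpow_neg_atTop hκ).comp ht).const_mul CS).mul_const _
    rw [mul_zero, zero_mul] at h2
    exact h2.eventually (ge_mem_nhds (by linarith))
  filter_upwards [ht.eventually_ge_atTop 1, hrl.eventually (ge_mem_nhds hρ₁), hrl.eventually (ge_mem_nhds hρ₂),
    H φ₁ hφ₁T (δ / 6) (by linarith), H ζ hζH 1 one_pos, herr] with i hti e1 e2 e3 e4 e5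
  have hnorm : ∀ z, ‖G i 0 z‖ ^ 2 = ff χ (f i) z ^ 2 := by
    intro z
    rw [hG3, Complex.norm_real, Real.norm_eq_abs, sq_abs]
  have hEd : (Ed (r i) fun w => ‖G i 0 w‖ ^ 2) = Ed (r i) fun w => ff χ (f i) w ^ 2 := by
    congr 1
    funext w
    exact hnorm w
  have a1 := Sq.BdM.ed_eq h1 (f i) (hd1 (r i) (hr i).1 e1) 0
  have a2 := Sq.BdM.ed_eq h1 (f i) (hd2 (r i) (hr i).1 e2) 0
  simp only [sub_zero] at a1 a2
  have hr' : r i ≤ t i ^ (-(1 / 2 + min δ₀ (1 / 2))) := by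
    refine (hr i).2.trans ?_
    apply Real.rpow_le_rpow_of_exponent_le hti
    have := min_le_left δ₀ (1 / 2)
    linarith
  have b1 := hS (t i) (r i) (G i) hti (hG1 i) (hG2 i) (hr i).1 hr'
  rw [hEd, a1, a2] at b1
  have heq : ∫ z : ℍ, φ z * f i z ^ 4 = ∫ z, φ₁ z * ‖G i 0 z‖ ^ 4 := by
    rw [Half.int_eq hInt hVH h1 hφV]
    refine integral_congr_ae (Eventually.of_forall fun z => ?_)
    show φ z * (z.im)⁻¹ ^ 2 * ff χ (f i) z ^ 4 = φ z * (z.im)⁻¹ ^ 2 * ‖G i 0 z‖ ^ 4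
    have h4 : ‖G i 0 z‖ ^ 4 = (‖G i 0 z‖ ^ 2) ^ 2 := by ring
    rw [h4, hnorm]
    ring
  have b5 : ∫ z : ℍ, (φ₁ z * (z : ℂ).im ^ 2) * ρ z ^ 2 = ∫ z : ℍ, φ z * ρ z ^ 2 := by
    refine integral_congr_ae (Eventually.of_forall fun z => ?_)
    have hne : (z : ℂ).im ≠ 0 := z.im_pos.ne'
    simp only [hφ₁]
    field_simp
  rw [b5] at e3
  have e3' : ∫ z : ℂ, φ₁ z * Ed (r i) (ext fun w => f i w ^ 2) z ^ 2 ≤ (∫ z : ℍ, φ z * ρ z ^ 2) + δ / 6 := e3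
  have e4' : ∫ z : ℂ, ζ z * Ed (r i) (ext fun w => f i w ^ 2) z ^ 2 ≤ B := e4
  have ht0 : 0 ≤ t i ^ (-κ) := Real.rpow_nonneg (by linarith) _
  have c1 : CS * t i ^ (-κ) * (1 + ∫ z, ζ z * Ed (r i) (ext fun w => f i w ^ 2) z ^ 2) ≤
      CS * t i ^ (-κ) * (1 + B) :=
    mul_le_mul_of_nonneg_left (by linarith) (mul_nonneg hCS ht0)
  rw [heq]
  linarith

end

end Pool.Agent.A54.HR
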