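import Pool.Agent.Lib.HS.R.Spec
import Pool.Agent.Lib.MP_a54f13_nt.Dyn.RatioS
import Pool.Agent.Lib.MP_a54f13_nt.Dyn.Half3

/-!
# Module Low: lower bound for the fourth moment with a density
-/

set_option autoImplicit false

namespace Pool.Agent.A54.HR

open MeasureTheory Filter Topology Set
open scoped ContDiff ComplexConjugate UpperHalfPlane MatrixGroups ENNReal
open Pool.Agent.A54.Half (H0 qq ff hh)
open Pool.Agent.A54.Sq (TestP)
open Pool.Agent.A54.LocGen Pool.Agent.A54.Ratio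

noncomputable section

namespace LowM

/-- the extension of the density is locally square integrable -/
lemma l2_ext {ρ : ℍ → ℝ} (hρ : Rho ρ) {V : Set ℂ} (hVH : V ⊆ H0) :
    L2loc V (fun z => (ext ρ z : ℂ)) := by
  have h0 : ∀ K : Set ℍ, IsCompact K → MemLp (fun z => (ρ z : ℂ)) 2 (volume.restrict K) := by
    intro K hK
    have hm : Measurable (fun z => (ρ z : ℂ)) := Complex.measurable_ofReal.comp hρ.meas
    rw [memLp_two_iff_integrable_sq_norm hm.aestronglyMeasurable]
    refine (hρ.sq K hK).congr (Filter.Eventually.of_forall fun z => ?_)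
    simp only [Complex.norm_real, Real.norm_eq_abs, sq_abs]
  have h1 := Half2.l2loc h0 hVH 0
  intro K hK hKV
  have h2 := h1 K hK hKV
  simp only [pow_zero, one_mul] at h2
  exact h2

/-- integrals over the half-plane with the weight `y²` -/
lemma int_w (hInt : StmtInt) {V : Set ℂ} (hVH : V ⊆ H0) {g : ℂ → ℝ} (hg : TestR V g)
    (X : ℂ → ℝ) : ∫ z : ℍ, g z * (z : ℂ).im ^ 2 * X z = ∫ w : ℂ, g w * X w := by
  have h0 : ∀ z : ℂ, z.im ≤ 0 → g z = 0 := by
    intro z hz
    exact hg.eq_zero fun h => (not_lt.mpr hz) (hVH h)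
  rw [hInt.1 (fun z => g z * z.im ^ 2 * X z) (fun z hz => by simp only [h0 z hz, zero_mul])]
  congr 1
  funext z
  rcases le_or_gt z.im 0 with hz | hz
  · simp only [h0 z hz, zero_mul, zero_div]
  · field_simp

lemma testR_im {V : Set ℂ} (hVH : V ⊆ H0) {g : ℂ → ℝ} (hg : TestR V g) :
    TestR V (fun z => g z * z.im ^ 2) :=
  Half.testR_mul Half.isOpen_H0 hg (hg.sub.trans hVH)
    ((Half.contDiff_im.pow 2).contDiffOn)

/-- the weak limit of the squares is the density -/
lemma rho_eq (hI : StmtIneq) (hInt : StmtInt) {χ : ℂ → ℝ} {V : Set ℂ}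
    (hVH : V ⊆ H0) (h1 : ∀ z ∈ V, χ z = 1) {f : ℕ → ℍ → ℝ} {t : ℕ → ℝ} {r : ℕ → ℂ → ℂ}
    (hS : Sm V (qq χ) (fun i => hh (t i)) (fun i => ff χ (f i)) r) {ρ : ℍ → ℝ} (hρ : Rho ρ)
    (hW : Wc (fun i z => f i z ^ 2) ρ) : ∀ᵐ z, z ∈ V → rho r z = ext ρ z := by
  have hL := l2_ext hρ hVH
  have hloc : LocallyIntegrableOn (fun z => rho r z - ext ρ z) V volume := by
    rw [locallyIntegrableOn_iff (hS.pot.isOpen.isLocallyClosed)]
    intro K hKV hK
    have : IsFiniteMeasure (volume.restrict K : Measure ℂ) :=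
      ⟨by rw [Measure.restrict_apply_univ]; exact hK.measure_lt_top⟩
    have h0 : IntegrableOn (fun z => rho r z) K :=
      (((L2loc_rho hS) K hK hKV).integrable (by norm_num)).re
    have h0' : IntegrableOn (fun z => ext ρ z) K :=
      ((hL K hK hKV).integrable (by norm_num)).re
    exact h0.sub h0'
  have h2 := IsOpen.ae_eq_zero_of_integral_contDiff_smul_eq_zero hS.pot.isOpen hloc (by
    intro g hg1 hg2 hg3
    have hw : TestR V g := ⟨hg1, hg2, hg3⟩
    have hw' : TestR V (fun z => g z * z.im ^ 2) := testR_im hVH hw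
    have hw'' : TestR H0 (fun z => g z * z.im ^ 2) := ⟨hw'.smooth, hw'.cpt, hw'.sub.trans hVH⟩
    have e0 := hW _ hw''
    have e1 : ∀ i, ∫ z : ℍ, (g z * (z : ℂ).im ^ 2) * f i z ^ 2 =
        ∫ z : ℂ, g z * ff χ (f i) z ^ 2 := by
      intro i
      rw [Half.int_eq hInt hVH h1 hw' (f i) 2]
      congr 1
      funext z
      by_cases hz : z ∈ V
      · have : z.im ≠ 0 := ne_of_gt (hVH hz)
        field_simp
      · rw [hw.eq_zero hz]
        ring
    have e2 : ∫ z : ℍ, (g z * (z : ℂ).im ^ 2) * ρ z = ∫ z : ℂ, g z * ext ρ z := by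
      rw [← int_w hInt hVH hw (ext ρ)]
      congr 1
      funext z
      rw [Half.ext_coe]
    have e3 : Tendsto (fun i => ∫ z : ℂ, g z * ff χ (f i) z ^ 2) atTop
        (𝓝 (∫ z : ℂ, g z * ext ρ z)) := by
      rw [← e2]
      exact e0.congr e1
    have e4 := tendsto_nhds_unique (second_lim hI hS hw) e3
    have i1 : Integrable (fun z => g z * rho r z) := by
      have := integrable_L2loc (L2loc_rho hS) hw (F := fun _ => 1) continuous_const
      simpa using this
    have i2 : Integrable (fun z => g z * ext ρ z) := by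
      have := integrable_L2loc hL hw (F := fun _ => 1) continuous_const
      simpa using this
    have e5 : ∀ z, g z • (rho r z - ext ρ z) = g z * rho r z - g z * ext ρ z := by
      intro z; rw [smul_eq_mul]; ring
    simp_rw [e5]
    rw [integral_sub i1 i2, e4, sub_self])
  filter_upwards [h2] with z hz hzV
  linarith [hz hzV]

end LowM

theorem stmtLow (hG : StmtLocGen) (hComp : StmtComp) (hI : StmtIneq) (hNA : Dyn.StmtNAf)
    (hInt : StmtInt) (hLap : StmtLap) : StmtLow := by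
  intro f t hf ht hK ρ hρ hW φ hφ δ hδ
  by_contra hcon
  rw [Filter.not_eventually] at hcon
  obtain ⟨τ, hτ, hτ'⟩ := Filter.extraction_of_frequently_atTop hcon
  have hg : ∀ i, IsHeckeMaass (f (τ i)) (t (τ i)) := fun i => hf _
  have hs : Tendsto (fun i => t (τ i)) atTop atTop := ht.comp hτ.tendsto_atTop
  obtain ⟨N, hN⟩ := Half.exists_N hs
  obtain ⟨χ, V, hχ, h01, hV, hVH, h1, hsub⟩ := Half.setup hφ.test
  have hφV : TestR V φ := ⟨hφ.test.smooth, hφ.test.cpt, hsub⟩
  have hS := Half2.seq (f := fun i => f (τ i)) (t := fun i => t (τ i)) hLap hχ h01 hV hVH h1 hg hs hN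
  have hb : L4Bdd V (fun i => ff χ (f (τ (i + N)))) :=
    Half.l4 hInt hVH h1 (fun i => hg (i + N)) (fun K hKc => by
      obtain ⟨C, hC⟩ := hK K hKc
      exact ⟨C, fun i => hC (τ (i + N))⟩)
  obtain ⟨σ, r, hσ, hSm⟩ := hComp V _ _ _ hS hb
  have hm : Dyn.HM (fun i => f (τ i)) (fun i => t (τ i)) := ⟨hg, hs⟩
  have hNl := Dyn.Half3M.naloc hNA hm hχ hVH h1 N
  have hw := Half.testR_weight hVH hφV
  have hw0 : ∀ z : ℂ, 0 ≤ φ z * (z.im)⁻¹ ^ 2 := fun z => mul_nonneg (hφ.nonneg z) (sq_nonneg _)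
  have hlim := hNl V σ r subset_rfl hσ hSm _ hw hw0
  have hsh := Dyn.RatioSM.sharp hG hI hSm hw hw0 hlim (show 0 < δ / 2 by linarith)
  -- the weak limit
  have hsubs : Tendsto (fun i => τ (σ i + N)) atTop atTop :=
    hτ.tendsto_atTop.comp ((tendsto_add_atTop_nat N).comp hσ.tendsto_atTop)
  have hW' : Wc (fun i z => f (τ (σ i + N)) z ^ 2) ρ := fun g hg' => (hW g hg').comp hsubs
  have hrho := LowM.rho_eq (f := fun i => f (τ (σ i + N))) (t := fun i => t (τ (σ i + N))) hI hInt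
    hVH h1 hSm hρ hW'
  have e1 : ∫ z : ℂ, φ z * (z.im)⁻¹ ^ 2 * rho r z ^ 2 = ∫ z : ℍ, φ z * ρ z ^ 2 := by
    rw [Half.int_eq hInt hVH h1 hφV ρ 2]
    apply integral_congr_ae
    filter_upwards [hrho] with z hz
    by_cases hzV : z ∈ V
    · rw [hz hzV]
      simp only [ff, h1 z hzV, one_mul]
    · rw [hφV.eq_zero hzV]
      ring
  rw [e1] at hsh
  obtain ⟨i, hi⟩ := hsh.exists
  have h3 := hτ' (σ i + N)
  rw [not_le, Half.int_eq hInt hVH h1 hφV] at h3
  linarith

end

end Pool.Agent.A54.HR
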