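import Pool.Agent.Lib.HS.R.Spec
import Pool.Agent.Lib.MP_a54f13_nt.Pl.U2

/-!
# Module Srf: from the half-plane to the modular surface, with a density
-/

set_option autoImplicit false

namespace Pool.Agent.A54.HR

open MeasureTheory Filter Topology Set
open scoped ContDiff ComplexConjugate UpperHalfPlane MatrixGroups ENNReal
open Pool.Agent.A54.Half (H0)
open Pool.Agent.A54.Sq (TestP)
open Pool.Agent.A54.Hp

noncomputable section

namespace SrfM

open Pool.Agent.A54.X Pool.Agent.A54.Pl.U2M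

lemma integrable_loc {φ : ℂ → ℝ} (hφ : TestR H0 φ) {G : ℍ → ℝ}
    (hG : ∀ D : Set ℍ, IsCompact D → IntegrableOn G D) : Integrable fun z : ℍ => φ z * G z := by
  have hD : IsCompact (UpperHalfPlane.coe ⁻¹' (tsupport φ) : Set ℍ) :=
    isCompact_preimage hφ.cpt hφ.sub
  have hc : Continuous fun z : ℍ => φ z :=
    hφ.smooth.continuous.comp UpperHalfPlane.continuous_coe
  have h1 : IntegrableOn (fun z : ℍ => φ z * G z)
      (UpperHalfPlane.coe ⁻¹' (tsupport φ) : Set ℍ) :=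
    (hG _ hD).continuousOn_mul hc.continuousOn hD
  rw [← integrableOn_univ]
  refine h1.of_forall_sdiff_eq_zero MeasurableSet.univ fun z hz => ?_
  rw [image_eq_zero_of_notMem_tsupport (fun h => hz.2 h), zero_mul]

lemma integrableOn_loc {G : ℍ → ℝ} (hG : ∀ D : Set ℍ, IsCompact D → IntegrableOn G D)
    {g : ℍ → ℝ} (hg : Continuous g) {Y : ℝ} (hY : ∀ z ∈ ModularGroup.fdo, Y < z.im → g z = 0) :
    IntegrableOn (fun z => g z * G z) ModularGroup.fdo := by
  have hT := ModularGroup.isCompact_truncatedFundamentalDomain Y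
  have h1 : IntegrableOn (fun z => g z * G z) (ModularGroup.truncatedFundamentalDomain Y) :=
    (hG _ hT).continuousOn_mul hg.continuousOn hT
  refine h1.of_forall_sdiff_eq_zero measurableSet_fdo (fun z hz => ?_)
  have h2 : g z = 0 := by
    apply hY z hz.1
    by_contra h
    exact hz.2 (fdo_inter_sub Y ⟨hz.1, not_lt.mp h⟩)
  rw [h2, zero_mul]

lemma compare {ψ : ℍ → ℝ} (hψc : Continuous ψ) {Y : ℝ}
    (hYo : ∀ z ∈ ModularGroup.fdo, Y < z.im → ψ z = 0) {B : ℝ} (hB : 0 ≤ B)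
    (hψB : ∀ z ∈ ModularGroup.truncatedFundamentalDomain Y, |ψ z| ≤ B)
    {χ ζ : ℂ → ℝ} (hχ : TestR O χ) (hχ1 : ∀ z, 0 ≤ χ z ∧ χ z ≤ 1) (hζ1 : ∀ z, 0 ≤ ζ z ∧ ζ z ≤ 1)
    (hζT : ∀ z ∈ ModularGroup.truncatedFundamentalDomain Y, ζ (z : ℍ) = 1)
    (hΘ : TestR H0 (fun z => B * (ζ z * (1 - χ z)))) {G : ℍ → ℝ}
    (hG : ∀ D : Set ℍ, IsCompact D → IntegrableOn G D) (hG0 : ∀ z, 0 ≤ G z) :
    |(∫ z in ModularGroup.fdo, ψ z * G z) - ∫ z : ℍ, (χ z * ext ψ z) * G z| ≤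
      ∫ z : ℍ, (B * (ζ z * (1 - χ z))) * G z := by
  have hχc : Continuous (fun z : ℍ => χ z) :=
    hχ.smooth.continuous.comp UpperHalfPlane.continuous_coe
  have i1 : IntegrableOn (fun z => ψ z * G z) ModularGroup.fdo := integrableOn_loc hG hψc hYo
  have i2 : IntegrableOn (fun z : ℍ => χ z * ψ z * G z) ModularGroup.fdo :=
    integrableOn_loc hG (g := fun z : ℍ => χ z * ψ z) (hχc.mul hψc) (Y := Y)
      (fun z hz h => by
        show χ z * ψ z = 0
        rw [hYo z hz h, mul_zero])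
  rw [integral_cut hχ ψ G, ← integral_sub i1 i2]
  refine abs_integral_le_integral_abs.trans ?_
  have i3 : Integrable fun z : ℍ => (B * (ζ z * (1 - χ z))) * G z :=
    integrable_loc (φ := fun z => B * (ζ z * (1 - χ z))) hΘ hG
  calc ∫ z in ModularGroup.fdo, |ψ z * G z - χ z * ψ z * G z|
      ≤ ∫ z in ModularGroup.fdo, (B * (ζ z * (1 - χ z))) * G z := by
        refine setIntegral_mono_on (i1.sub i2).abs i3.integrableOn measurableSet_fdo fun z hz => ?_
        have h0 : 0 ≤ B * (ζ z * (1 - χ z)) * G z :=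
          mul_nonneg (mul_nonneg hB (mul_nonneg (hζ1 z).1 (by linarith [(hχ1 z).2]))) (hG0 z)
        by_cases h : Y < z.im
        · rw [hYo z hz h]
          simpa using h0
        · have hzT := fdo_inter_sub Y ⟨hz, not_lt.mp h⟩
          have h1 : ψ z * G z - χ z * ψ z * G z = ψ z * ((1 - χ z) * G z) := by ring
          have h2 : 0 ≤ (1 - χ z) * G z := mul_nonneg (by linarith [(hχ1 z).2]) (hG0 z)
          rw [h1, abs_mul, abs_of_nonneg h2, hζT z hzT]
          calc |ψ z| * ((1 - χ z) * G z) ≤ B * ((1 - χ z) * G z) :=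
                mul_le_mul_of_nonneg_right (hψB z hzT) h2
            _ = B * (1 * (1 - χ z)) * G z := by ring
    _ ≤ ∫ z : ℍ, (B * (ζ z * (1 - χ z))) * G z := by
        refine setIntegral_le_integral i3 (Eventually.of_forall fun z => ?_)
        exact mul_nonneg (mul_nonneg hB (mul_nonneg (hζ1 z).1 (by linarith [(hχ1 z).2]))) (hG0 z)

/-- the part of an integrable function above a large level is small -/
lemma trunc {D : Set ℍ} {G : ℍ → ℝ} (hGm : Measurable G) (hG0 : ∀ z, 0 ≤ G z)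
    (hG : IntegrableOn G D) {ε : ℝ} (hε : 0 < ε) :
    ∃ L : ℝ, 0 ≤ L ∧ IntegrableOn (fun z => max (G z - L) 0) D ∧
      ∫ z in D, max (G z - L) 0 ≤ ε := by
  have hb : ∀ (n : ℕ) (z : ℍ), ‖max (G z - n) 0‖ ≤ G z := fun n z => by
    rw [Real.norm_eq_abs, abs_of_nonneg (le_max_right _ _)]
    exact max_le (by linarith [Nat.cast_nonneg (α := ℝ) n]) (hG0 z)
  have hm : ∀ n : ℕ, AEStronglyMeasurable (fun z => max (G z - n) 0) (volume.restrict D) :=
    fun n => ((hGm.sub_const _).max measurable_const).aestronglyMeasurable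
  have h : Tendsto (fun n : ℕ => ∫ z in D, max (G z - n) 0) atTop (𝓝 (∫ _ in D, (0 : ℝ))) := by
    refine tendsto_integral_of_dominated_convergence G hm hG
      (fun n => Eventually.of_forall (hb n)) ?_
    refine Eventually.of_forall fun z => ?_
    refine tendsto_const_nhds.congr' ?_
    obtain ⟨m, hm⟩ := exists_nat_ge (G z)
    filter_upwards [eventually_ge_atTop m] with n hn
    rw [max_eq_right]
    have : (m : ℝ) ≤ n := by exact_mod_cast hn
    linarith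
  rw [integral_zero] at h
  obtain ⟨n, hn⟩ := ((tendsto_order.mp h).2 ε hε).exists
  exact ⟨n, n.cast_nonneg, Integrable.mono' hG (hm n) (Eventually.of_forall (hb n)), hn.le⟩

lemma testR_prod {ζ χ : ℂ → ℝ} (hζ : TestR H0 ζ) (hχ : TestR O χ) (B : ℝ) :
    TestR H0 (fun z => B * (ζ z * (1 - χ z))) := by
  refine ⟨contDiff_const.mul (hζ.smooth.mul (contDiff_const.sub hχ.smooth)), ?_, ?_⟩
  · exact (hζ.cpt.mul_right).mul_left
  · refine (tsupport_mul_subset_right (f := fun _ : ℂ => B)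
      (g := fun z => ζ z * (1 - χ z))).trans ?_
    exact (tsupport_mul_subset_left (f := ζ) (g := fun z => 1 - χ z)).trans hζ.sub

/-- the error integral -/
lemma err {χ ζ ζ₀ : ℂ → ℝ} (hχ : TestR O χ) (hχ1 : ∀ z, 0 ≤ χ z ∧ χ z ≤ 1) (hζ : TestR H0 ζ)
    (hζ1 : ∀ z, 0 ≤ ζ z ∧ ζ z ≤ 1) (hζ₀1 : ∀ z, 0 ≤ ζ₀ z ∧ ζ₀ z ≤ 1)
    {G : ℍ → ℝ} (hG0 : ∀ z, 0 ≤ G z) {L : ℝ} (hL : 0 ≤ L)
    (hLi : IntegrableOn (fun z => max (G z - L) 0) (UpperHalfPlane.coe ⁻¹' (tsupport ζ₀) : Set ℍ)) :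
    ∫ z : ℍ, ((ζ z * ζ₀ z) * (1 - χ z)) * G z ≤
      L * (∫ z : ℍ, ζ z * (1 - χ z)) +
        ∫ z in (UpperHalfPlane.coe ⁻¹' (tsupport ζ₀) : Set ℍ), max (G z - L) 0 := by
  have hDm : MeasurableSet (UpperHalfPlane.coe ⁻¹' (tsupport ζ₀) : Set ℍ) :=
    (isClosed_tsupport ζ₀).measurableSet.preimage UpperHalfPlane.measurable_coe
  have i1 : Integrable fun z : ℍ => ζ z * (1 - χ z) := by
    have := integrable_test (testR_prod hζ hχ 1) (G := fun _ => 1) continuous_const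
    refine this.congr (Eventually.of_forall fun z => ?_)
    show 1 * (ζ z * (1 - χ z)) * 1 = ζ z * (1 - χ z)
    ring
  rw [← integral_const_mul, ← integral_indicator hDm, ← integral_add (i1.const_mul L)
    ((integrable_indicator_iff hDm).mpr hLi)]
  refine integral_mono_of_nonneg ?_ ((i1.const_mul L).add
    ((integrable_indicator_iff hDm).mpr hLi)) ?_
  · refine Eventually.of_forall fun z => ?_
    have := (hχ1 z).2
    exact mul_nonneg (mul_nonneg (mul_nonneg (hζ1 z).1 (hζ₀1 z).1) (by linarith)) (hG0 z)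
  · refine Eventually.of_forall fun z => ?_
    show ((ζ z * ζ₀ z) * (1 - χ z)) * G z ≤ L * (ζ z * (1 - χ z)) +
      (UpperHalfPlane.coe ⁻¹' (tsupport ζ₀) : Set ℍ).indicator (fun z => max (G z - L) 0) z
    have hc := (hχ1 z).2
    have hc0 := (hχ1 z).1
    have h1 := hζ1 z
    have h2 := hζ₀1 z
    have ha : 0 ≤ ζ z * (1 - χ z) := mul_nonneg h1.1 (by linarith)
    have ha1 : ζ z * (1 - χ z) ≤ 1 := by
      calc ζ z * (1 - χ z) ≤ 1 * 1 := mul_le_mul h1.2 (by linarith) (by linarith) zero_le_one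
        _ = 1 := one_mul 1
    by_cases hz : z ∈ (UpperHalfPlane.coe ⁻¹' (tsupport ζ₀) : Set ℍ)
    · rw [indicator_of_mem hz]
      have e1 : ((ζ z * ζ₀ z) * (1 - χ z)) * G z = (ζ z * (1 - χ z)) * ζ₀ z * G z := by ring
      obtain ⟨a, ha'⟩ : ∃ a, a = ζ z * (1 - χ z) := ⟨_, rfl⟩
      rw [e1, ← ha']
      rw [← ha'] at ha ha1
      have h3 : a * ζ₀ z ≤ a := mul_le_of_le_one_right ha h2.2
      have h4 : 0 ≤ a * ζ₀ z := mul_nonneg ha h2.1
      have h5 : a * ζ₀ z * L ≤ a * L := mul_le_mul_of_nonneg_right h3 hL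
      have h6 : a * ζ₀ z * (G z - L) ≤ a * ζ₀ z * max (G z - L) 0 :=
        mul_le_mul_of_nonneg_left (le_max_left _ _) h4
      have h7 : a * ζ₀ z * max (G z - L) 0 ≤ 1 * max (G z - L) 0 :=
        mul_le_mul_of_nonneg_right (h3.trans ha1) (le_max_right _ _)
      calc a * ζ₀ z * G z = a * ζ₀ z * L + a * ζ₀ z * (G z - L) := by ring
        _ ≤ a * L + 1 * max (G z - L) 0 := add_le_add h5 (h6.trans h7)
        _ = L * a + max (G z - L) 0 := by ring
    · rw [indicator_of_notMem hz, add_zero]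
      have h3 : ζ₀ z = 0 := image_eq_zero_of_notMem_tsupport (fun h => hz h)
      rw [h3]
      have : 0 ≤ L * (ζ z * (1 - χ z)) := mul_nonneg hL ha
      simpa using this

end SrfM

open SrfM in
theorem stmtSrf : StmtSrf := by
  intro F G hFc hF0 hGm hG0 hG hW ψ hψ
  obtain ⟨Y, hY⟩ := hψ.cusp
  have hψc : Continuous ψ := X.continuous_of_ext hψ.smooth
  have hYo : ∀ z ∈ ModularGroup.fdo, Y < z.im → ψ z = 0 := fun z hz h =>
    hY z (ModularGroup.fdo_subset_fd hz) h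
  have hT := ModularGroup.isCompact_truncatedFundamentalDomain Y
  obtain ⟨B₀, hB₀⟩ := hT.exists_bound_of_continuousOn hψc.continuousOn
  obtain ⟨B, hBd⟩ : ∃ B, B = max B₀ 0 + 1 := ⟨_, rfl⟩
  have hB0 : 0 < B := by
    have := le_max_right B₀ 0
    linarith
  have hψB : ∀ z ∈ ModularGroup.truncatedFundamentalDomain Y, |ψ z| ≤ B := by
    intro z hz
    have h1 := hB₀ z hz
    have h2 := le_max_left B₀ 0
    rw [Real.norm_eq_abs] at h1
    linarith
  have hH0 : IsOpen H0 := isOpen_lt continuous_const Complex.continuous_im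
  obtain ⟨ζ₀, hζ₀, hζ₀1, hζ₀T⟩ := exists_cutoff (hT.image UpperHalfPlane.continuous_coe) hH0
    (by
      rintro _ ⟨z, -, rfl⟩
      exact z.im_pos)
  have hD : IsCompact (UpperHalfPlane.coe ⁻¹' (tsupport ζ₀) : Set ℍ) :=
    Pl.U2M.isCompact_preimage hζ₀.cpt hζ₀.sub
  have hFi : ∀ i, ∀ D : Set ℍ, IsCompact D → IntegrableOn (F i) D := fun i D hD =>
    (hFc i).continuousOn.integrableOn_compact hD
  rw [Metric.tendsto_nhds]
  intro ε hε
  obtain ⟨L, hL, hLi, hLε⟩ := trunc hGm hG0 (hG _ hD) (ε := ε / (8 * B)) (by positivity)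
  obtain ⟨η, hη⟩ : ∃ η, η = ε / (8 * (L + 1) * B) := ⟨_, rfl⟩
  have hη0 : 0 < η := by rw [hη]; positivity
  obtain ⟨χ, ζ, hχ, hχ1, hζ, hζ1, hζT, hint⟩ := Pl.U2M.cutoffs Y hη0
  have hζζ : TestR H0 (fun z => ζ z * ζ₀ z) := hζ.mul_right hζ₀.smooth
  have hζζ1 : ∀ z, 0 ≤ ζ z * ζ₀ z ∧ ζ z * ζ₀ z ≤ 1 := fun z =>
    ⟨mul_nonneg (hζ1 z).1 (hζ₀1 z).1, by
      calc ζ z * ζ₀ z ≤ 1 * 1 := mul_le_mul (hζ1 z).2 (hζ₀1 z).2 (hζ₀1 z).1 zero_le_one
        _ = 1 := one_mul 1⟩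
  have hζζT : ∀ z ∈ ModularGroup.truncatedFundamentalDomain Y, ζ (z : ℍ) * ζ₀ z = 1 := by
    intro z hz
    rw [hζT z hz, hζ₀T.self_of_nhdsSet _ ⟨z, hz, rfl⟩, one_mul]
  have hΘ : TestR H0 (fun z => B * ((ζ z * ζ₀ z) * (1 - χ z))) := testR_prod hζζ hχ B
  have hφ : TestR H0 (fun w => χ w * ext ψ w) := X.testR_cut hψ.smooth hχ
  have hcmp := fun (G : ℍ → ℝ) (hG : ∀ D : Set ℍ, IsCompact D → IntegrableOn G D)
    (hG0 : ∀ z, 0 ≤ G z) =>
    compare hψc hYo hB0.le hψB hχ hχ1 hζζ1 hζζT hΘ hG hG0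
  -- the error integral
  have hE : ∫ z : ℍ, B * ((ζ z * ζ₀ z) * (1 - χ z)) * G z ≤ ε / 4 := by
    have h1 := err hχ hχ1 hζ hζ1 hζ₀1 hG0 hL hLi
    have h2 : L * (∫ z : ℍ, ζ z * (1 - χ z)) ≤ L * η := mul_le_mul_of_nonneg_left hint hL
    have h3 : ∫ z : ℍ, B * ((ζ z * ζ₀ z) * (1 - χ z)) * G z =
        B * ∫ z : ℍ, ((ζ z * ζ₀ z) * (1 - χ z)) * G z := by
      rw [← integral_const_mul]
      refine integral_congr_ae (Eventually.of_forall fun z => ?_)
      show B * ((ζ z * ζ₀ z) * (1 - χ z)) * G z = B * (((ζ z * ζ₀ z) * (1 - χ z)) * G z)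
      ring
    rw [h3]
    have h4 : B * (∫ z : ℍ, ((ζ z * ζ₀ z) * (1 - χ z)) * G z) ≤
        B * (L * η + ε / (8 * B)) := by
      refine mul_le_mul_of_nonneg_left ?_ hB0.le
      linarith
    have h5 : B * (ε / (8 * B)) = ε / 8 := by field_simp
    have h6 : B * ((L + 1) * η) = ε / 8 := by
      rw [hη]
      field_simp
    have h7 : B * (L * η) ≤ B * ((L + 1) * η) := by
      refine mul_le_mul_of_nonneg_left ?_ hB0.le
      nlinarith
    calc _ ≤ B * (L * η + ε / (8 * B)) := h4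
      _ = B * (L * η) + B * (ε / (8 * B)) := by ring
      _ ≤ ε / 8 + ε / 8 := by rw [h5]; linarith
      _ = ε / 4 := by ring
  have hlim1 := (Metric.tendsto_nhds.mp (hW _ hΘ)) (ε / 4) (by positivity)
  have hlim2 := (Metric.tendsto_nhds.mp (hW _ hφ)) (ε / 4) (by positivity)
  filter_upwards [hlim1, hlim2] with i hi1 hi2
  rw [Real.dist_eq] at hi1 hi2 ⊢
  have h2 := hcmp (F i) (hFi i) (hF0 i)
  have h1 := hcmp G hG hG0
  have h3 : ∫ z : ℍ, B * ((ζ z * ζ₀ z) * (1 - χ z)) * F i z < ε / 4 + ε / 4 := by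
    have h4 := (abs_lt.mp hi1).2
    linarith
  have h7 : (∫ z in ModularGroup.fdo, ψ z * F i z) - ∫ z in ModularGroup.fdo, ψ z * G z =
      ((∫ z in ModularGroup.fdo, ψ z * F i z) - ∫ z : ℍ, χ z * ext ψ z * F i z) +
      ((∫ z : ℍ, χ z * ext ψ z * F i z) - ∫ z : ℍ, χ z * ext ψ z * G z) +
      ((∫ z : ℍ, χ z * ext ψ z * G z) - ∫ z in ModularGroup.fdo, ψ z * G z) := by ring
  rw [h7]
  refine (abs_add_three _ _ _).trans_lt ?_
  rw [abs_sub_comm (∫ z : ℍ, χ z * ext ψ z * G z)]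
  linarith

end

end Pool.Agent.A54.HR
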