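import Pool.Agent.Lib.HS.R.Spec
import Pool.Agent.Lib.MP_a54f13_nt.Hp.L2S

/-!
# Module Upr: upper bound for the local masses, with a density
-/

set_option autoImplicit false

namespace Pool.Agent.A54.HR

open MeasureTheory Filter Topology Set
open scoped ContDiff ComplexConjugate UpperHalfPlane MatrixGroups ENNReal
open Pool.Agent.A54.Half (H0)
open Pool.Agent.A54.Sq (TestP)
open Pool.Agent.A54.Hp

noncomputable section

namespace UprM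

open Pool.Agent.A54.Hp.L2SM

/-- the weak limit of the averages -/
lemma massW (hM : StmtMsW) {c C₀ : ℝ} {K : ℕ} {v : ℝ → ℝ} (hc : 0 < c) {l : ℕ → ℕ → ℝ}
    {f : ℕ → ℍ → ℝ} {t : ℕ → ℝ} {N : ℕ → ℕ} {b : ℕ → ℤ → ℝ}
    (hD : ∀ i, Dt c v C₀ K (l i) (f i) (t i) (N i) (b i)) (ht : Tendsto t atTop atTop)
    {ρ : ℍ → ℝ} (hf : Wc (fun i z => f i z ^ 2) ρ) :
    Wc (fun i => Sb (f i) (t i) (N i) (b i)) ρ := by
  intro φ hφ
  obtain ⟨C, hC, h⟩ := hM φ hφ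
  have h1 : Tendsto (fun i => (∫ z : ℍ, φ z * Sb (f i) (t i) (N i) (b i) z) -
      ∫ z : ℍ, φ z * f i z ^ 2) atTop (𝓝 0) := by
    refine squeeze_zero_norm' (Eventually.of_forall fun i => ?_)
      (lim_rpow ht (2 * C) (a := 1 / 2) (by norm_num))
    rw [Real.norm_eq_abs]
    refine (h (f i) (t i) (hD i).hm (hD i).one_le (N i) (fun n => b i n ^ 2)
      (fun n => sq_nonneg _) (hD i).pack.norm).trans ?_
    have ht1 := (hD i).one_le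
    have ht0 : 0 < t i := by linarith
    have h3 : (N i : ℝ) ≤ 2 * t i ^ (1 / 2 : ℝ) := (hD i).pack.hi.trans (by
      apply mul_le_mul_of_nonneg_left _ (by norm_num)
      exact Real.rpow_le_rpow_of_exponent_le ht1 (by linarith))
    have h4 : t i ^ (1 / 2 : ℝ) / t i = t i ^ (-(1 / 2 : ℝ)) := by
      rw [div_eq_iff ht0.ne', ← Real.rpow_add_one ht0.ne']
      norm_num
    calc C * N i / t i ≤ C * (2 * t i ^ (1 / 2 : ℝ)) / t i := by gcongr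
      _ = 2 * C * (t i ^ (1 / 2 : ℝ) / t i) := by ring
      _ = _ := by rw [h4]
  have h5 := h1.add (hf φ hφ)
  simpa using h5

/-- upper bounds for the second moments -/
lemma upperR (hT : StmtTwG) (hPv : StmtPv) (hS2 : StmtSt2) (hV : StmtV2u) {c C₀ : ℝ} (hc : 0 < c)
    (hc1 : c ≤ 1) (hC₀ : 0 ≤ C₀) {K : ℕ} {v : ℝ → ℝ} (hv : ∀ R, 0 < v R) (h1 : L2SM.C1 c v C₀ K)
    (hX : L2SM.CX c v C₀ K) {l : ℕ → ℕ → ℝ} {f : ℕ → ℍ → ℝ} {t : ℕ → ℝ} {N : ℕ → ℕ}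
    {b : ℕ → ℤ → ℝ} (hD : ∀ i, Dt c v C₀ K (l i) (f i) (t i) (N i) (b i))
    (ht : Tendsto t atTop atTop) {ρ : ℍ → ℝ} (hρR : Rho ρ)
    (hm : Wc (fun i => Sb (f i) (t i) (N i) (b i)) ρ)
    {φ : ℂ → ℝ} (hφ : TestP H0 φ) {δ : ℝ} (hδ : 0 < δ) :
    ∀ᶠ i in atTop, ∫ z : ℂ, φ z * (Pl.Ed (rh c (t i)) (Spl (f i) (t i) (N i) (b i)) z) ^ 2 ≤
      (∫ z : ℍ, (φ z * (z : ℂ).im ^ 2) * ρ z ^ 2) + δ := by
  obtain ⟨P, kf, hP, hk, hPv⟩ := hPv
  obtain ⟨ζ, C2, hζ, hC2, hPv⟩ := hPv φ hφ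
  have hφ2 := wP hφ
  have hδ4 : 0 < δ / 4 := by linarith
  obtain ⟨C3, θ₁, hC3, hθ₁, hθ₁1, h3⟩ := hS2 c C₀ hc hc1 hC₀ K v hv _ hφ2
  obtain ⟨C4, θ₂, hC4, hθ₂, hθ₂1, h4⟩ := hS2 c C₀ hc hc1 hC₀ K v hv _ hζ
  obtain ⟨t4, -, h4⟩ := h4 θ₂ θ₂ hθ₂ le_rfl le_rfl
  obtain ⟨e₀, he₀, hVf⟩ := hV (fun i => Sb (f i) (t i) (N i) (b i)) ρ
    (fun i => sb_cont hT (hD i).hm _ _) (fun i z => sp_nonneg _ _ _ _ _) hρR hm _ hφ2
    (δ / 4) hδ4
  obtain ⟨θ, hθ, hθm, hθ1, hθδ⟩ := smallθ (C := C3) hc hδ4 (lt_min hθ₁ he₀)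
  have hθθ₁ : θ ≤ θ₁ := hθm.trans (min_le_left _ _)
  have hθe : θ ≤ e₀ := hθm.trans (min_le_right _ _)
  have hε : 0 < θ ^ 3 := by positivity
  have hεθ : θ ^ 3 ≤ θ := by
    calc θ ^ 3 = θ * (θ * θ) := by ring
      _ ≤ θ * (1 * 1) := by gcongr
      _ = θ := by ring
  obtain ⟨t3, -, h3⟩ := h3 θ (θ ^ 3) hε hεθ hθθ₁
  have hq : θ ^ 3 / θ ^ 2 = θ := by
    rw [div_eq_iff (by positivity)]
    ring
  rw [hq] at h3
  obtain ⟨P0, hP0⟩ : ∃ P0, P0 = ∫ z : ℍ, (φ z * (z : ℂ).im ^ 2) * ρ z ^ 2 := ⟨_, rfl⟩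
  have hP00 : 0 ≤ P0 := by
    rw [hP0]
    exact integral_nonneg fun z =>
      mul_nonneg (mul_nonneg (hφ.nonneg _) (sq_nonneg _)) (sq_nonneg _)
  rw [← hP0]
  have hV3 := hVf (θ ^ 3) hε (hεθ.trans hθe)
  have hV4 : ∀ᶠ i in atTop, V2 (fun z => φ z * z.im ^ 2) (sk (θ ^ 3))
      (Sb (f i) (t i) (N i) (b i)) (Sb (f i) (t i) (N i) (b i)) ≤
        ENNReal.ofReal (P0 + δ / 4) := by
    rw [hP0]
    exact hV3
  obtain ⟨M, hM⟩ : ∃ M, M = C4 / θ₂ ^ 2 + C4 * (θ₂ / θ₂ ^ 2 + θ₂ ^ c) + 1 := ⟨_, rfl⟩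
  have hM0 : 0 ≤ M := by rw [hM]; positivity
  have hρM : Tendsto (fun i => C2 * M * rh c (t i)) atTop (𝓝 0) := by
    have := (rh_lim hc ht).const_mul (C2 * M)
    rw [mul_zero] at this
    exact this
  filter_upwards [step1 hc h1 hX hD ht hP hk hφ2 hδ4, step1 hc h1 hX hD ht hP hk hζ one_pos,
    ht.eventually (eventually_ge_atTop t3), ht.eventually (eventually_ge_atTop t4), hV4,
    hρM.eventually (ge_mem_nhds hδ4), (rh_lim hc ht).eventually (ge_mem_nhds (by norm_num :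
      (0 : ℝ) < 1 / 8))] with i s1 s2 s3 s4 s5 s6 s7
  have ht1 := (hD i).one_le
  have hρ := rh_pos (c := c) ht1
  obtain ⟨g1, -⟩ := h3 _ _ _ _ _ (hD i) s3
  obtain ⟨g2, g3⟩ := h4 _ _ _ _ _ (hD i) s4
  have hPi := hPv _ hρ s7 (Spl (f i) (t i) (N i) (b i))
    (sp_smooth hT (hD i).hm _ _).continuousOn (sp_nonneg _ _ _ _)
  have u1 : V2 (fun z => φ z * z.im ^ 2) (kf (rh c (t i))) (Sb (f i) (t i) (N i) (b i))
      (Sb (f i) (t i) (N i) (b i)) ≤ ENNReal.ofReal (P0 + δ / 4 + δ / 4 + δ / 4) := by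
    rw [ENNReal.ofReal_add (by positivity) hδ4.le, ENNReal.ofReal_add (by positivity) hδ4.le]
    refine s1.trans ?_
    gcongr
    refine g1.trans ?_
    gcongr
  have u2 : V2 ζ (kf (rh c (t i))) (Sb (f i) (t i) (N i) (b i))
      (Sb (f i) (t i) (N i) (b i)) ≤ ENNReal.ofReal M := by
    rw [hM, ENNReal.ofReal_add (by positivity) one_pos.le,
      ENNReal.ofReal_add (by positivity) (by positivity)]
    refine s2.trans ?_
    gcongr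
    refine g2.trans ?_
    gcongr
  have u3 : ENNReal.ofReal (C2 * rh c (t i)) * V2 ζ (kf (rh c (t i)))
      (Sb (f i) (t i) (N i) (b i)) (Sb (f i) (t i) (N i) (b i)) ≤ ENNReal.ofReal (δ / 4) := by
    calc _ ≤ ENNReal.ofReal (C2 * rh c (t i)) * ENNReal.ofReal M := by gcongr
      _ = ENNReal.ofReal (C2 * rh c (t i) * M) := (ENNReal.ofReal_mul (by positivity)).symm
      _ ≤ ENNReal.ofReal (δ / 4) := by
          apply ENNReal.ofReal_le_ofReal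
          refine le_trans (le_of_eq ?_) s6
          ring
  have u4 := hPi.trans (add_le_add u1 u3)
  rw [← ENNReal.ofReal_add (by positivity) hδ4.le, ENNReal.ofReal_le_ofReal_iff (by positivity)]
    at u4
  linarith

/-- the expansion of the square -/
lemma expand {φ A B : ℂ → ℝ} (hφ : TestP H0 φ) (hA : Continuous A) (hB : Continuous B) {κ : ℝ}
    (hκ : 0 < κ) :
    ∫ z, φ z * A z ^ 2 ≤ (1 + κ) * (∫ z, φ z * B z ^ 2) +
      (1 + κ⁻¹) * ∫ z, φ z * (A z - B z) ^ 2 := by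
  have i1 : Integrable fun z => φ z * A z ^ 2 := Rel.integrable_testR hφ.test (hA.pow 2)
  have i2 : Integrable fun z => φ z * (A z - B z) ^ 2 :=
    Rel.integrable_testR hφ.test ((hA.sub hB).pow 2)
  have i3 : Integrable fun z => φ z * B z ^ 2 := Rel.integrable_testR hφ.test (hB.pow 2)
  rw [← integral_const_mul, ← integral_const_mul,
    ← integral_add (i3.const_mul (1 + κ)) (i2.const_mul (1 + κ⁻¹))]
  refine integral_mono i1 ((i3.const_mul (1 + κ)).add (i2.const_mul (1 + κ⁻¹))) fun z => ?_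
  show φ z * A z ^ 2 ≤ (1 + κ) * (φ z * B z ^ 2) + (1 + κ⁻¹) * (φ z * (A z - B z) ^ 2)
  have h := hφ.nonneg z
  have h2 : A z ^ 2 ≤ (1 + κ) * B z ^ 2 + (1 + κ⁻¹) * (A z - B z) ^ 2 := by
    have h3 : 0 ≤ κ⁻¹ * (κ * B z - (A z - B z)) ^ 2 :=
      mul_nonneg (inv_pos.mpr hκ).le (sq_nonneg _)
    have h4 : κ⁻¹ * (κ * B z - (A z - B z)) ^ 2 =
        (1 + κ) * B z ^ 2 + (1 + κ⁻¹) * (A z - B z) ^ 2 - A z ^ 2 := by
      field_simp
      ring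
    linarith
  calc φ z * A z ^ 2 ≤ φ z * ((1 + κ) * B z ^ 2 + (1 + κ⁻¹) * (A z - B z) ^ 2) :=
        mul_le_mul_of_nonneg_left h2 h
    _ = _ := by ring

end UprM

open Pool.Agent.A54.Hp.L2SM in
theorem stmtUpr (hT : StmtTwG) (_hL : StmtLh) (hPv : StmtPv) (hS1 : StmtSt1) (hS2 : StmtSt2)
    (hDif : StmtDif) (hXb : StmtXb) (hM : StmtMsW) (hV : StmtV2u) : StmtUpr := by
  intro c hc hc1
  obtain ⟨K1, h1⟩ := hS1 c hc hc1
  obtain ⟨K2, h2⟩ := hXb c hc hc1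
  refine ⟨max K1 (max K2 1), fun K hK C₀ hC₀ v hv l f t N b hD ht ρ hρR hf φ hφ δ hδ => ?_⟩
  have hK1 : K1 ≤ K := (le_max_left _ _).trans hK
  have hK2 : K2 ≤ K := ((le_max_left _ _).trans (le_max_right _ _)).trans hK
  have hK3 : 1 ≤ K := ((le_max_right _ _).trans (le_max_right _ _)).trans hK
  have c1 : L2SM.C1 c v C₀ K := h1 K hK1 C₀ hC₀ v hv
  have cX : L2SM.CX c v C₀ K := fun ψ hψ => (h2 K hK2 C₀ hC₀ v hv ψ hψ).1
  have hmH := UprM.massW hM hc hD ht hf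
  have hρ0 : ∀ i, 0 < rh c (t i) := fun i => rh_pos (hD i).one_le
  have hρ := rh_lim hc ht
  -- the constant
  obtain ⟨P0, hP0⟩ : ∃ P0, P0 = ∫ z : ℍ, (φ z * (z : ℂ).im ^ 2) * ρ z ^ 2 := ⟨_, rfl⟩
  have hP00 : 0 ≤ P0 := by
    rw [hP0]
    exact integral_nonneg fun z =>
      mul_nonneg (mul_nonneg (hφ.nonneg _) (sq_nonneg _)) (sq_nonneg _)
  obtain ⟨κ, hκ⟩ : ∃ κ, κ = δ / (4 * P0 + δ) := ⟨_, rfl⟩
  have hκ0 : 0 < κ := by rw [hκ]; positivity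
  have hκ1 : κ * (P0 + δ / 4) = δ / 4 := by
    rw [hκ, div_mul_eq_mul_div, div_eq_iff (by positivity)]
    ring
  -- the difference
  obtain ⟨ζ, C, t₀, hζ, hC, -, hd⟩ := hDif c C₀ hc hc1 hC₀ K hK3 φ hφ
  obtain ⟨C', t₁, hC', -, h'⟩ := cX _ hζ (c / 1600) (by positivity)
  have hl := lim_rpow ht ((1 + κ⁻¹) * (C * C')) (a := c / 800 - c / 1600) (by linarith)
  -- cut offs
  obtain ⟨χ, V, hχ, h01, hVo, hVH, hχ1, hsub⟩ := Half.setup hφ.test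
  obtain ⟨ρ₀, hρ₀, hcg⟩ := edc hφ.test hVo hsub
  filter_upwards [ht.eventually (eventually_ge_atTop t₀), ht.eventually (eventually_ge_atTop t₁),
    hρ.eventually (ge_mem_nhds hρ₀), hl.eventually (ge_mem_nhds (by linarith : (0 : ℝ) < δ / 4)),
    UprM.upperR hT hPv hS2 hV hc hc1 hC₀ hv c1 cX hD ht hρR hmH hφ (by linarith : 0 < δ / 4)]
    with i i1 i2 i3 i4 i5
  have ht1 := (hD i).one_le
  have ht0 : 0 < t i := by linarith
  have hd1 := hd v (l i) (f i) (t i) (N i) (b i) (hD i) i1 (C' * t i ^ (c / 1600)) (by positivity)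
    (h' _ _ _ _ _ (hD i) i2)
  have e1 : C * t i ^ (-(c / 800)) * (C' * t i ^ (c / 1600)) =
      C * C' * t i ^ (-(c / 800 - c / 1600)) := by
    have : t i ^ (-(c / 800 - c / 1600)) = t i ^ (-(c / 800)) * t i ^ (c / 1600) := by
      rw [← Real.rpow_add ht0]
      congr 1
      ring
    rw [this]
    ring
  rw [e1] at hd1
  set A : ℂ → ℝ := Pl.Ed (rh c (t i)) (fun w => Half.ff χ (f i) w ^ 2) with hAd
  set B : ℂ → ℝ := Pl.Ed (rh c (t i)) (fun w => χ w * Spl (f i) (t i) (N i) (b i) w) with hBd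
  have hA : Continuous A :=
    Pl.continuous_Ed ((Half.ff_smooth hχ (hD i).hm.smooth).continuous.pow 2) _
  have hBc : Continuous B := Pl.continuous_Ed (cut hT (hD i).hm (N i) (b i) hχ).continuous _
  have eA : ∀ z ∈ tsupport φ, Pl.Ed (rh c (t i)) (fun w => ext (f i) w ^ 2) z = A z :=
    hcg _ (hρ0 i) i3 _ _ fun w hw => by
      show ext (f i) w ^ 2 = (χ w * ext (f i) w) ^ 2
      rw [hχ1 w hw, one_mul]
  have eB : ∀ z ∈ tsupport φ, Pl.Ed (rh c (t i)) (Spl (f i) (t i) (N i) (b i)) z = B z :=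
    hcg _ (hρ0 i) i3 _ _ fun w hw => by rw [hχ1 w hw, one_mul]
  have f1 : ∫ z, φ z * (Pl.Ed (rh c (t i)) (fun w => ext (f i) w ^ 2) z) ^ 2 =
      ∫ z, φ z * A z ^ 2 := int_tsupp fun z hz => by rw [eA z hz]
  have f2 : ∫ z, φ z * (Pl.Ed (rh c (t i)) (fun w => ext (f i) w ^ 2) z -
      Pl.Ed (rh c (t i)) (Spl (f i) (t i) (N i) (b i)) z) ^ 2 = ∫ z, φ z * (A z - B z) ^ 2 :=
    int_tsupp fun z hz => by rw [eA z hz, eB z hz]
  have f3 : ∫ z, φ z * (Pl.Ed (rh c (t i)) (Spl (f i) (t i) (N i) (b i)) z) ^ 2 =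
      ∫ z, φ z * B z ^ 2 := int_tsupp fun z hz => by rw [eB z hz]
  rw [f2] at hd1
  rw [f3] at i5
  rw [f1]
  rw [← hP0] at i5 ⊢
  have h6 := UprM.expand hφ hA hBc hκ0
  have h7 : (1 + κ⁻¹) * ∫ z, φ z * (A z - B z) ^ 2 ≤ δ / 4 := by
    refine le_trans (mul_le_mul_of_nonneg_left hd1 (by positivity)) ?_
    refine le_trans (le_of_eq ?_) i4
    ring
  have h8 : (1 + κ) * (∫ z, φ z * B z ^ 2) ≤ (1 + κ) * (P0 + δ / 4) :=
    mul_le_mul_of_nonneg_left i5 (by positivity)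
  have h9 : (1 + κ) * (P0 + δ / 4) = P0 + δ / 4 + κ * (P0 + δ / 4) := by ring
  rw [h9, hκ1] at h8
  linarith

end

end Pool.Agent.A54.HR
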