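import Pool.Agent.Lib.HS.R.Spec
import Pool.Agent.Lib.MP_a54f13_nt.Hp.Vfx

/-!
# Package `HS/R`: fixed scales, upper bound with a density (`StmtV2u`)

Author: helper2 (after `Hp/Vfx.lean`).
-/

set_option autoImplicit false

namespace Pool.Agent.A54.HR

open MeasureTheory Filter Topology Set
open scoped ContDiff ComplexConjugate UpperHalfPlane MatrixGroups ENNReal
open Pool.Agent.A54.Half (H0)
open Pool.Agent.A54.Sq (TestP)
open Pool.Agent.A54.Hp
open Pool.Agent.A54.Hp.VfxM (gk hk_coe uh_comm cpt_pre V2_eq one_of_ker lip continuous_uh integrable_test)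

noncomputable section

namespace V2uM

lemma loc {ρ : ℍ → ℝ} (hρ : Rho ρ) : LocallyIntegrable ρ := by
  rw [locallyIntegrable_iff]
  intro D hD
  have hfin : IsFiniteMeasure (volume.restrict D) :=
    ⟨by rw [Measure.restrict_apply_univ]; exact hD.measure_lt_top⟩
  have h2 : MemLp ρ 2 (volume.restrict D) := by
    rw [memLp_two_iff_integrable_sq hρ.meas.aestronglyMeasurable]
    exact hρ.sq D hD
  exact (h2.mono_exponent (by norm_num : (1 : ℝ≥0∞) ≤ 2)).integrable le_rfl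

lemma loc2 {ρ : ℍ → ℝ} (hρ : Rho ρ) : LocallyIntegrable (fun z => ρ z ^ 2) := by
  rw [locallyIntegrable_iff]
  intro D hD
  exact hρ.sq D hD

lemma int_cs {h F : ℍ → ℝ} (hc : Continuous h) (hs : HasCompactSupport h)
    (hF : LocallyIntegrable F) : Integrable (fun z => h z * F z) := by
  have h1 := hF.integrable_smul_left_of_hasCompactSupport (𝕜 := ℝ) hc hs
  simpa only [smul_eq_mul] using h1

lemma test_c {ζ : ℂ → ℝ} (hζ : TestR H0 ζ) : Continuous (fun z : ℍ => ζ z) ∧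
    HasCompactSupport (fun z : ℍ => ζ z) := by
  refine ⟨hζ.smooth.continuous.comp UpperHalfPlane.continuous_coe,
    HasCompactSupport.intro (cpt_pre hζ.cpt.isCompact hζ.sub) fun z hz => ?_⟩
  exact image_eq_zero_of_notMem_tsupport hz

lemma int_k {F : ℍ → ℝ} (hF : LocallyIntegrable F) {e : ℝ} {z : ℍ}
    (ht : TestR H0 (hk (sk e) z)) : Integrable (fun w : ℍ => sk e (uh z w) * F w) := by
  refine (int_cs (test_c ht).1 (test_c ht).2 hF).congr (Eventually.of_forall fun w => ?_)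
  change hk (sk e) z (w : ℂ) * F w = sk e (uh z w) * F w
  rw [hk_coe]

/-- the integral against the kernel is Lipschitz continuous -/
lemma gk_lip {K₀ K₁ : Set ℂ} {e L : ℝ} {ζ : ℂ → ℝ} {F : ℍ → ℝ} (hF : LocallyIntegrable F)
    (hF0 : ∀ z, 0 ≤ F z) (hζ : TestR H0 ζ) (hζ0 : ∀ z, 0 ≤ ζ z) (hζ1 : ∀ z ∈ K₀, ζ z = 1)
    (hL : 0 ≤ L)
    (ht : ∀ z : ℍ, (z : ℂ) ∈ K₁ → TestR H0 (hk (sk e) z) ∧ tsupport (hk (sk e) z) ⊆ K₀)
    (hl : ∀ w : ℍ, (w : ℂ) ∈ K₀ → ∀ z z' : ℂ, |hk (sk e) w z - hk (sk e) w z'| ≤ L * ‖z - z'‖)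
    {z z' : ℍ} (hz : (z : ℂ) ∈ K₁) (hz' : (z' : ℂ) ∈ K₁) :
    |gk e F z - gk e F z'| ≤ L * ‖(z : ℂ) - z'‖ * ∫ w : ℍ, ζ w * F w := by
  have hzero : ∀ z : ℍ, (z : ℂ) ∈ K₁ → ∀ w : ℍ, (w : ℂ) ∉ K₀ → sk e (uh z w) = 0 := by
    intro z hz w hw
    rw [← hk_coe (sk e)]
    exact image_eq_zero_of_notMem_tsupport fun h => hw ((ht z hz).2 h)
  unfold gk
  rw [← integral_sub (int_k hF (ht z hz).1) (int_k hF (ht z' hz').1), ← integral_const_mul,
    ← Real.norm_eq_abs]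
  refine norm_integral_le_of_norm_le ((int_cs (test_c hζ).1 (test_c hζ).2 hF).const_mul _)
    (Eventually.of_forall fun w => ?_)
  rw [Real.norm_eq_abs, ← sub_mul, abs_mul, abs_of_nonneg (hF0 w), ← mul_assoc]
  refine mul_le_mul_of_nonneg_right ?_ (hF0 w)
  by_cases hw : (w : ℂ) ∈ K₀
  · rw [hζ1 _ hw, mul_one, uh_comm z, uh_comm z', ← hk_coe (sk e), ← hk_coe (sk e)]
    exact hl w hw _ _
  · rw [hzero z hz w hw, hzero z' hz' w hw, sub_zero, abs_zero]
    exact mul_nonneg (mul_nonneg hL (norm_nonneg _)) (hζ0 _)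

/-- pointwise convergence and equicontinuity give uniform convergence -/
lemma unif {K₁ : Set ℂ} (hK₁ : IsCompact K₁) (hK₁H : K₁ ⊆ H0) {B : ℝ} (hB : 0 ≤ B)
    {g : ℕ → ℍ → ℝ} {G : ℍ → ℝ}
    (hg : ∀ᶠ i in atTop, ∀ z z' : ℍ, (z : ℂ) ∈ K₁ → (z' : ℂ) ∈ K₁ →
      |g i z - g i z'| ≤ B * ‖(z : ℂ) - z'‖)
    (hG : ∀ z z' : ℍ, (z : ℂ) ∈ K₁ → (z' : ℂ) ∈ K₁ → |G z - G z'| ≤ B * ‖(z : ℂ) - z'‖)
    (hpt : ∀ z : ℍ, (z : ℂ) ∈ K₁ → Tendsto (fun i => g i z) atTop (𝓝 (G z))) {ε : ℝ}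
    (hε : 0 < ε) : ∀ᶠ i in atTop, ∀ z : ℍ, (z : ℂ) ∈ K₁ → |g i z - G z| ≤ ε := by
  set δ : ℝ := ε / (3 * (B + 1)) with hδ
  have hδ0 : 0 < δ := by positivity
  have hBδ : B * δ ≤ ε / 3 := by
    rw [hδ]
    calc B * (ε / (3 * (B + 1))) = ε / 3 * (B / (B + 1)) := by field_simp
      _ ≤ ε / 3 * 1 := by
          refine mul_le_mul_of_nonneg_left ?_ (by positivity)
          rw [div_le_one (by linarith)]
          linarith
      _ = ε / 3 := mul_one _
  obtain ⟨t, ht1, ht2, ht3⟩ := hK₁.finite_cover_balls hδ0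
  have hfin : (UpperHalfPlane.coe ⁻¹' t : Set ℍ).Finite :=
    ht2.preimage (UpperHalfPlane.coe_injective.injOn)
  have hev : ∀ᶠ i in atTop, ∀ x ∈ (UpperHalfPlane.coe ⁻¹' t : Set ℍ), |g i x - G x| < ε / 3 := by
    rw [eventually_all_finite hfin]
    intro x hx
    have h3 := hpt x (ht1 hx)
    rw [Metric.tendsto_nhds] at h3
    exact h3 (ε / 3) (by positivity)
  filter_upwards [hev, hg] with i hi hgi z hz
  have h3 := ht3 hz
  rw [mem_iUnion₂] at h3
  obtain ⟨x, hx, hzx⟩ := h3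
  have hxH : x ∈ H0 := hK₁H (ht1 hx)
  have h4 := hi ⟨x, hxH⟩ hx
  have h5 := hgi z ⟨x, hxH⟩ hz (ht1 hx)
  have h5' := hG ⟨x, hxH⟩ z (ht1 hx) hz
  have h6 : ‖(z : ℂ) - x‖ < δ := by rwa [Metric.mem_ball, dist_eq_norm] at hzx
  have h7 : B * ‖(z : ℂ) - x‖ ≤ ε / 3 := (mul_le_mul_of_nonneg_left h6.le hB).trans hBδ
  have h5a : |g i z - g i ⟨x, hxH⟩| ≤ ε / 3 := h5.trans h7
  have h5b : |G ⟨x, hxH⟩ - G z| ≤ ε / 3 := by
    refine h5'.trans ?_
    rw [norm_sub_rev]
    exact h7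
  have h8 : |g i z - G z| ≤ |g i z - g i ⟨x, hxH⟩| + |g i ⟨x, hxH⟩ - G z| := abs_sub_le _ _ _
  have h9 : |g i ⟨x, hxH⟩ - G z| ≤ |g i ⟨x, hxH⟩ - G ⟨x, hxH⟩| + |G ⟨x, hxH⟩ - G z| :=
    abs_sub_le _ _ _
  linarith

/-- weak convergence against continuous functions -/
lemma weak (hApx : StmtApx) {S : ℕ → ℍ → ℝ} {ρ : ℍ → ℝ} (hS : ∀ i, Continuous (S i))
    (hS0 : ∀ i z, 0 ≤ S i z) (hρ : LocallyIntegrable ρ) (hρ0 : ∀ z, 0 ≤ ρ z) (hW : Wc S ρ)
    {h : ℍ → ℝ} (hc : Continuous h) (hs : HasCompactSupport h) {δ : ℝ} (hδ : 0 < δ) :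
    ∀ᶠ i in atTop, ∫ z : ℍ, h z * S i z ≤ (∫ z : ℍ, h z * ρ z) + δ := by
  obtain ⟨ζ, hζ, hA⟩ := hApx h hc hs
  have hM0 : 0 ≤ ∫ z : ℍ, ζ z * ρ z := integral_nonneg fun z => mul_nonneg (hζ.nonneg _) (hρ0 z)
  set M : ℝ := (∫ z : ℍ, ζ z * ρ z) + 1 with hM
  have hM1 : 0 < M := by linarith
  obtain ⟨φ, hφ, hb⟩ := hA (δ / (4 * M)) (by positivity)
  have h1 : ∀ F : ℍ → ℝ, LocallyIntegrable F → (∀ z, 0 ≤ F z) →
      |(∫ z : ℍ, h z * F z) - ∫ z : ℍ, φ z * F z| ≤ δ / (4 * M) * ∫ z : ℍ, ζ z * F z := by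
    intro F hF hF0
    rw [← integral_sub (int_cs hc hs hF) (int_cs (test_c hφ).1 (test_c hφ).2 hF),
      ← integral_const_mul, ← Real.norm_eq_abs]
    refine norm_integral_le_of_norm_le
      ((int_cs (test_c hζ.test).1 (test_c hζ.test).2 hF).const_mul _)
      (Eventually.of_forall fun w => ?_)
    rw [Real.norm_eq_abs, ← sub_mul, abs_mul, abs_of_nonneg (hF0 w), ← mul_assoc]
    exact mul_le_mul_of_nonneg_right (hb w) (hF0 w)
  have h2 := h1 ρ hρ hρ0
  have h3 : δ / (4 * M) * ∫ z : ℍ, ζ z * ρ z ≤ δ / 4 := by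
    calc δ / (4 * M) * ∫ z : ℍ, ζ z * ρ z ≤ δ / (4 * M) * M :=
          mul_le_mul_of_nonneg_left (by linarith) (by positivity)
      _ = δ / 4 := by field_simp
  filter_upwards [(hW ζ hζ.test).eventually_le_const (lt_add_one _),
    (hW φ hφ).eventually_le_const (lt_add_of_pos_right _ (show 0 < δ / 4 by positivity))] with i hi1 hi2
  have h4 := h1 (S i) (hS i).locallyIntegrable (hS0 i)
  have h5 : δ / (4 * M) * ∫ z : ℍ, ζ z * S i z ≤ δ / 4 := by
    calc δ / (4 * M) * ∫ z : ℍ, ζ z * S i z ≤ δ / (4 * M) * M :=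
          mul_le_mul_of_nonneg_left hi1 (by positivity)
      _ = δ / 4 := by field_simp
  have h6 := abs_le.1 h4
  have h7 := abs_le.1 h2
  linarith [h6.2, h7.1]

/-- the double integral, upper bound -/
lemma V2_up {φ : ℂ → ℝ} {e ε : ℝ} {F G : ℍ → ℝ} (hF : Continuous F) (hF0 : ∀ z, 0 ≤ F z)
    (hφ : TestP H0 φ) (hk0 : ∀ u, 0 ≤ sk e u) (hε0 : 0 ≤ ε) (hG0 : ∀ z, 0 ≤ G z)
    (hc : Continuous (fun z : ℍ => φ z * G z))
    (ht : ∀ z : ℍ, (z : ℂ) ∈ tsupport φ → TestR H0 (hk (sk e) z))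
    (hg : ∀ z : ℍ, (z : ℂ) ∈ tsupport φ → gk e F z ≤ G z + ε) :
    V2 φ (sk e) F F ≤ ENNReal.ofReal ((∫ z : ℍ, φ z * G z * F z) + ε * ∫ z : ℍ, φ z * F z) := by
  have hs : HasCompactSupport (fun z : ℍ => φ z * G z) := (test_c hφ.test).2.mul_right
  have hFl : LocallyIntegrable F := hF.locallyIntegrable
  have i1 : Integrable (fun z : ℍ => φ z * G z * F z) := int_cs hc hs hFl
  have i2 : Integrable (fun z : ℍ => ε * (φ z * F z)) :=
    (int_cs (test_c hφ.test).1 (test_c hφ.test).2 hFl).const_mul _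
  have i3 : Integrable (fun z : ℍ => φ z * G z * F z + ε * (φ z * F z)) := i1.add i2
  have n3 : ∀ z : ℍ, 0 ≤ φ z * G z * F z + ε * (φ z * F z) := fun z =>
    add_nonneg (mul_nonneg (mul_nonneg (hφ.nonneg _) (hG0 z)) (hF0 z))
      (mul_nonneg hε0 (mul_nonneg (hφ.nonneg _) (hF0 z)))
  rw [V2_eq hF hF0 hφ hk0 ht, ← integral_const_mul, ← integral_add i1 i2,
    ofReal_integral_eq_lintegral_ofReal i3 (Eventually.of_forall n3)]
  refine lintegral_mono fun z => ?_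
  by_cases hz : (z : ℂ) ∈ tsupport φ
  · have h1 : 0 ≤ φ z * F z := mul_nonneg (hφ.nonneg _) (hF0 z)
    calc ENNReal.ofReal (φ z * F z) * ENNReal.ofReal (gk e F z)
        ≤ ENNReal.ofReal (φ z * F z) * ENNReal.ofReal (G z + ε) :=
          mul_le_mul' le_rfl (ENNReal.ofReal_le_ofReal (hg z hz))
      _ = ENNReal.ofReal (φ z * G z * F z + ε * (φ z * F z)) := by
          rw [← ENNReal.ofReal_mul h1]
          congr 1
          ring
  · have h0 : φ z = 0 := image_eq_zero_of_notMem_tsupport hz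
    simp [h0]

lemma continuous_uh2 : Continuous fun p : ℍ × ℍ => uh p.1 p.2 := by
  unfold uh
  refine Continuous.div ?_ ?_ fun p => (mul_pos p.1.im_pos p.2.im_pos).ne'
  · exact (((UpperHalfPlane.continuous_coe.comp continuous_fst).sub
      (UpperHalfPlane.continuous_coe.comp continuous_snd)).norm).pow 2
  · exact (UpperHalfPlane.continuous_im.comp continuous_fst).mul
      (UpperHalfPlane.continuous_im.comp continuous_snd)

lemma continuous_sk (e : ℝ) : Continuous (sk e) := by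
  unfold sk
  exact (Real.smoothTransition.continuous.comp (by fun_prop)).div_const _

/-- the function `φ g` is continuous -/
lemma cont_h {φ : ℂ → ℝ} {e C₀ : ℝ} {ρ : ℍ → ℝ} {K₀ : Set ℂ} (hρ : Rho ρ) (hφ : TestP H0 φ)
    (hK : Ker C₀ e (sk e)) (hK₀ : IsCompact K₀) (hK₀H : K₀ ⊆ H0)
    (hz0 : ∀ z : ℍ, (z : ℂ) ∈ tsupport φ → ∀ w : ℍ, (w : ℂ) ∉ K₀ → sk e (uh z w) = 0) :
    Continuous (fun z : ℍ => φ z * gk e ρ z) := by
  have hpre := cpt_pre hK₀ hK₀H
  obtain ⟨B, hB⟩ := hφ.test.smooth.continuous.bounded_above_of_compact_support hφ.test.cpt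
  have hB0 : 0 ≤ B := (norm_nonneg _).trans (hB 0)
  have heq : (fun z : ℍ => φ z * gk e ρ z) =
      fun z : ℍ => ∫ w : ℍ, φ z * sk e (uh z w) * ρ w := by
    funext z
    unfold gk
    rw [← integral_const_mul]
    exact integral_congr_ae (Eventually.of_forall fun w => (mul_assoc _ _ _).symm)
  rw [heq]
  have hint : IntegrableOn ρ (UpperHalfPlane.coe ⁻¹' K₀) :=
    (loc hρ).integrableOn_isCompact hpre
  refine continuous_of_dominated
    (bound := (UpperHalfPlane.coe ⁻¹' K₀ : Set ℍ).indicator fun w => B * (C₀ / e ^ 2) * ρ w)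
    (fun z => ?_) (fun z => Eventually.of_forall fun w => ?_) ?_
    (Eventually.of_forall fun w => ?_)
  · exact (((hK.meas.comp (continuous_uh z).measurable).const_mul _).mul
      hρ.meas).aestronglyMeasurable
  · rw [Real.norm_eq_abs, abs_mul, abs_mul, abs_of_nonneg (hρ.nonneg w),
      abs_of_nonneg (hK.nonneg _)]
    by_cases hz : (z : ℂ) ∈ tsupport φ
    · by_cases hw : (w : ℂ) ∈ K₀
      · rw [indicator_of_mem (show w ∈ (UpperHalfPlane.coe ⁻¹' K₀ : Set ℍ) from hw)]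
        refine mul_le_mul_of_nonneg_right ?_ (hρ.nonneg w)
        exact mul_le_mul (hB z) (hK.le _) (hK.nonneg _) hB0
      · rw [hz0 z hz w hw, mul_zero, zero_mul]
        refine indicator_nonneg (fun w _ => ?_) w
        have h1 : 0 ≤ C₀ / e ^ 2 := (hK.nonneg 0).trans (hK.le 0)
        exact mul_nonneg (mul_nonneg hB0 h1) (hρ.nonneg w)
    · rw [image_eq_zero_of_notMem_tsupport hz, abs_zero, zero_mul, zero_mul]
      refine indicator_nonneg (fun w _ => ?_) w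
      have h1 : 0 ≤ C₀ / e ^ 2 := (hK.nonneg 0).trans (hK.le 0)
      exact mul_nonneg (mul_nonneg hB0 h1) (hρ.nonneg w)
  · exact (integrable_indicator_iff hpre.measurableSet).2 (hint.const_mul _)
  · refine ((test_c hφ.test).1.mul ((continuous_sk e).comp ?_)).mul continuous_const
    exact continuous_uh2.comp (continuous_id.prodMk continuous_const)

/-- the main inequality -/
lemma main_ineq {φ : ℂ → ℝ} {e C₀ om : ℝ} {ρ : ℍ → ℝ} {K₀ : Set ℂ} (hAr : StmtAr) (hρ : Rho ρ)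
    (hφ : TestP H0 φ) (hK : Ker C₀ e (sk e)) (hK₀ : IsCompact K₀) (hK₀H : K₀ ⊆ H0) (hom : 0 ≤ om)
    (ht : ∀ z : ℍ, (z : ℂ) ∈ tsupport φ → TestR H0 (hk (sk e) z))
    (hdom : ∀ z w : ℍ, φ z * sk e (uh z w) ≤
      (φ w + (UpperHalfPlane.coe ⁻¹' K₀ : Set ℍ).indicator (fun _ => om) w) * sk e (uh z w))
    (hc : Continuous (fun z : ℍ => φ z * gk e ρ z)) :
    ∫ z : ℍ, φ z * gk e ρ z * ρ z ≤
      (∫ z : ℍ, φ z * ρ z ^ 2) + om / 2 * ∫ z in (UpperHalfPlane.coe ⁻¹' K₀ : Set ℍ), ρ z ^ 2 := by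
  set D : Set ℍ := UpperHalfPlane.coe ⁻¹' K₀ with hD
  have hDc : IsCompact D := cpt_pre hK₀ hK₀H
  have hk0 := hK.nonneg
  have hg0 : ∀ z, 0 ≤ gk e ρ z := fun z =>
    integral_nonneg fun w => mul_nonneg (hk0 _) (hρ.nonneg w)
  have hone : ∀ z : ℍ, ∫⁻ w : ℍ, ENNReal.ofReal (sk e (uh z w)) = 1 := by
    intro z
    have h1 := one_of_ker hK hAr z
    have h2 : Integrable (fun w : ℍ => sk e (uh z w)) := by
      by_contra h
      rw [integral_undef h] at h1
      exact zero_ne_one h1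
    rw [← ofReal_integral_eq_lintegral_ofReal h2 (Eventually.of_forall fun w => hk0 _), h1,
      ENNReal.ofReal_one]
  have hone' : ∀ w : ℍ, ∫⁻ z : ℍ, ENNReal.ofReal (sk e (uh z w)) = 1 := by
    intro w
    rw [← hone w]
    exact lintegral_congr fun z => by rw [uh_comm]
  set cc : ℍ → ℝ := fun w => (φ w + D.indicator (fun _ => om) w) * ρ w ^ 2 / 2 with hcc
  have hcc0 : ∀ w, 0 ≤ cc w := fun w => by
    have h1 : 0 ≤ D.indicator (fun _ => om) w := indicator_nonneg (fun _ _ => hom) w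
    have h2 := hφ.nonneg w
    have h3 := sq_nonneg (ρ w)
    rw [hcc]
    positivity
  have hccm : Measurable cc := by
    refine Measurable.div_const (Measurable.mul (Measurable.add ?_ ?_) (hρ.meas.pow_const 2)) _
    · exact (test_c hφ.test).1.measurable
    · exact measurable_const.indicator hDc.measurableSet
  have i1 : Integrable (fun z : ℍ => φ z * ρ z ^ 2) :=
    int_cs (test_c hφ.test).1 (test_c hφ.test).2 (loc2 hρ)
  have i2 : Integrable (D.indicator fun z : ℍ => ρ z ^ 2) :=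
    (integrable_indicator_iff hDc.measurableSet).2 (hρ.sq D hDc)
  have hcceq : cc = fun w : ℍ => 1 / 2 * (φ w * ρ w ^ 2) + om / 2 *
      (D.indicator (fun z : ℍ => ρ z ^ 2) w) := by
    funext w
    rw [hcc]
    by_cases hw : w ∈ D
    · simp only [indicator_of_mem hw]
      ring
    · simp only [indicator_of_notMem hw]
      ring
  have i3 : Integrable cc := by
    rw [hcceq]
    exact (i1.const_mul _).add (i2.const_mul _)
  have hccint : ∫ w, cc w = 1 / 2 * (∫ z : ℍ, φ z * ρ z ^ 2) + om / 2 * ∫ z in D, ρ z ^ 2 := by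
    rw [hcceq, integral_add (i1.const_mul _) (i2.const_mul _), integral_const_mul,
      integral_const_mul, integral_indicator hDc.measurableSet]
  have key : ∫⁻ z : ℍ, ENNReal.ofReal (φ z * gk e ρ z * ρ z) ≤
      ENNReal.ofReal ((∫ z : ℍ, φ z * ρ z ^ 2) + om / 2 * ∫ z in D, ρ z ^ 2) := by
    have s1 : ∀ z : ℍ, ENNReal.ofReal (φ z * gk e ρ z * ρ z) ≤
        (∫⁻ w : ℍ, ENNReal.ofReal (φ z * ρ z ^ 2 / 2) * ENNReal.ofReal (sk e (uh z w))) +
        ∫⁻ w : ℍ, ENNReal.ofReal (cc w) * ENNReal.ofReal (sk e (uh z w)) := by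
      intro z
      by_cases hz : (z : ℂ) ∈ tsupport φ
      · have hint := int_k (loc hρ) (ht z hz)
        have h1 : φ z * gk e ρ z * ρ z = ∫ w : ℍ, φ z * ρ z * (sk e (uh z w) * ρ w) := by
          rw [integral_const_mul]
          unfold gk
          ring
        have hn : 0 ≤ φ z * ρ z := mul_nonneg (hφ.nonneg _) (hρ.nonneg _)
        have hmz : Measurable fun w : ℍ => ENNReal.ofReal (sk e (uh z w)) :=
          (hK.meas.comp (continuous_uh z).measurable).ennreal_ofReal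
        rw [h1, ofReal_integral_eq_lintegral_ofReal (hint.const_mul _)
          (Eventually.of_forall fun w => mul_nonneg hn (mul_nonneg (hk0 _) (hρ.nonneg w))),
          ← lintegral_add_left (hmz.const_mul _)]
        refine lintegral_mono fun w => ?_
        have h3 := hk0 (uh z w)
        have h4 := hφ.nonneg z
        have h5 := hdom z w
        rw [← ENNReal.ofReal_mul (by positivity), ← ENNReal.ofReal_mul (hcc0 w),
          ← ENNReal.ofReal_add (by positivity) (mul_nonneg (hcc0 w) h3)]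
        refine ENNReal.ofReal_le_ofReal ?_
        have h6 : φ z * sk e (uh z w) * (ρ w ^ 2 / 2) ≤
            (φ w + D.indicator (fun _ => om) w) * sk e (uh z w) * (ρ w ^ 2 / 2) :=
          mul_le_mul_of_nonneg_right h5 (by positivity)
        have h7 : φ z * ρ z * (sk e (uh z w) * ρ w) ≤
            φ z * ρ z ^ 2 / 2 * sk e (uh z w) + φ z * sk e (uh z w) * (ρ w ^ 2 / 2) := by
          have h8 : 0 ≤ φ z * sk e (uh z w) * (ρ z - ρ w) ^ 2 := by positivity
          nlinarith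
        refine h7.trans ?_
        rw [hcc]
        have h9 : (φ w + D.indicator (fun _ => om) w) * sk e (uh z w) * (ρ w ^ 2 / 2) =
            (φ w + D.indicator (fun _ => om) w) * ρ w ^ 2 / 2 * sk e (uh z w) := by ring
        linarith
      · have h0 : φ z = 0 := image_eq_zero_of_notMem_tsupport hz
        simp [h0]
    have hm : Measurable fun p : ℍ × ℍ => ENNReal.ofReal (sk e (uh p.1 p.2)) :=
      (hK.meas.comp continuous_uh2.measurable).ennreal_ofReal
    have m1 : Measurable fun z : ℍ =>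
        ∫⁻ w : ℍ, ENNReal.ofReal (φ z * ρ z ^ 2 / 2) * ENNReal.ofReal (sk e (uh z w)) := by
      refine Measurable.lintegral_prod_right ?_
      refine Measurable.mul ?_ hm
      have h1 : Measurable fun z : ℍ => φ z * ρ z ^ 2 / 2 :=
        ((test_c hφ.test).1.measurable.mul (hρ.meas.pow_const 2)).div_const _
      exact (h1.comp measurable_fst).ennreal_ofReal
    calc ∫⁻ z : ℍ, ENNReal.ofReal (φ z * gk e ρ z * ρ z)
        ≤ ∫⁻ z : ℍ, ((∫⁻ w : ℍ, ENNReal.ofReal (φ z * ρ z ^ 2 / 2) *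
            ENNReal.ofReal (sk e (uh z w))) +
          ∫⁻ w : ℍ, ENNReal.ofReal (cc w) * ENNReal.ofReal (sk e (uh z w))) := lintegral_mono s1
      _ = (∫⁻ z : ℍ, ∫⁻ w : ℍ, ENNReal.ofReal (φ z * ρ z ^ 2 / 2) *
            ENNReal.ofReal (sk e (uh z w))) +
          ∫⁻ z : ℍ, ∫⁻ w : ℍ, ENNReal.ofReal (cc w) * ENNReal.ofReal (sk e (uh z w)) :=
          lintegral_add_left m1 _
      _ = (∫⁻ z : ℍ, ENNReal.ofReal (φ z * ρ z ^ 2 / 2)) + ∫⁻ w : ℍ, ENNReal.ofReal (cc w) := by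
          congr 1
          · refine lintegral_congr fun z => ?_
            rw [lintegral_const_mul' _ _ ENNReal.ofReal_ne_top, hone z, mul_one]
          · rw [lintegral_lintegral_swap]
            · refine lintegral_congr fun w => ?_
              rw [lintegral_const_mul' _ _ ENNReal.ofReal_ne_top, hone' w, mul_one]
            · exact (((hccm.comp measurable_snd).ennreal_ofReal).mul hm).aemeasurable
      _ = ENNReal.ofReal ((∫ z : ℍ, φ z * ρ z ^ 2) + om / 2 * ∫ z in D, ρ z ^ 2) := by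
          have i4 : Integrable (fun z : ℍ => φ z * ρ z ^ 2 / 2) := i1.div_const _
          have n4 : ∀ z : ℍ, 0 ≤ φ z * ρ z ^ 2 / 2 := fun z => by
            have := hφ.nonneg z
            positivity
          rw [← ofReal_integral_eq_lintegral_ofReal i4 (Eventually.of_forall n4),
            ← ofReal_integral_eq_lintegral_ofReal i3 (Eventually.of_forall hcc0),
            ← ENNReal.ofReal_add (integral_nonneg n4) (integral_nonneg hcc0), hccint,
            integral_div]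
          congr 1
          ring
  have hn : ∀ z : ℍ, 0 ≤ φ z * gk e ρ z * ρ z := fun z =>
    mul_nonneg (mul_nonneg (hφ.nonneg _) (hg0 z)) (hρ.nonneg z)
  have ih : Integrable (fun z : ℍ => φ z * gk e ρ z * ρ z) :=
    int_cs hc (test_c hφ.test).2.mul_right (loc hρ)
  rw [← ofReal_integral_eq_lintegral_ofReal ih (Eventually.of_forall hn)] at key
  refine (ENNReal.ofReal_le_ofReal_iff ?_).1 key
  have h1 : 0 ≤ ∫ z : ℍ, φ z * ρ z ^ 2 :=
    integral_nonneg fun z => mul_nonneg (hφ.nonneg _) (sq_nonneg _)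
  have h2 : 0 ≤ ∫ z in D, ρ z ^ 2 := integral_nonneg fun z => sq_nonneg _
  positivity

end V2uM

open V2uM in
/-- **V2u** -/
theorem stmtV2u (hAr : StmtAr) (hSk : StmtSk) (hApx : StmtApx) : StmtV2u := by
  intro S ρ hS hS0 hρ hW φ hφ δ hδ
  obtain ⟨hct, ⟨C₀, hC₀, hKer⟩, hsm⟩ := hSk
  set K₁ : Set ℂ := tsupport φ with hK₁
  have hK₁c : IsCompact K₁ := hφ.test.cpt.isCompact
  obtain ⟨K₀, C, e₀, hK₀, hK₀H, hC, he₀, he₀1, h1⟩ := hsm _ (cpt_pre hK₁c hφ.test.sub)
  obtain ⟨K₀', C', e₀', hK₀', hK₀H', hC', he₀', he₀1', h2⟩ := hsm _ (cpt_pre hK₀ hK₀H)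
  obtain ⟨ζ, hζ, hζ01, hζ1⟩ := exists_cutoff hK₀ Half.isOpen_H0 hK₀H
  set D : Set ℍ := UpperHalfPlane.coe ⁻¹' K₀ with hD
  have hDc : IsCompact D := cpt_pre hK₀ hK₀H
  set Q : ℝ := ∫ z in D, ρ z ^ 2 with hQ
  have hQ0 : 0 ≤ Q := integral_nonneg fun z => sq_nonneg _
  set om : ℝ := δ / (2 * (Q + 1)) with hom
  have hom0 : 0 < om := by positivity
  have homQ : om / 2 * Q ≤ δ / 4 := by
    rw [hom]
    calc δ / (2 * (Q + 1)) / 2 * Q = δ / 4 * (Q / (Q + 1)) := by field_simp; ring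
      _ ≤ δ / 4 * 1 := by
          refine mul_le_mul_of_nonneg_left ?_ (by positivity)
          rw [div_le_one (by linarith)]
          linarith
      _ = δ / 4 := mul_one _
  -- heights and the Lipschitz constant of the weight
  obtain ⟨Y, hY0, hY⟩ : ∃ Y : ℝ, 0 ≤ Y ∧ ∀ z ∈ K₁ ∪ K₀, z.im ≤ Y := by
    obtain ⟨Y, hY⟩ := ((hK₁c.union hK₀).image Complex.continuous_im).bddAbove
    exact ⟨max Y 0, le_max_right _ _, fun z hz =>
      (hY (mem_image_of_mem _ hz)).trans (le_max_left _ _)⟩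
  obtain ⟨B, hB0, hB⟩ : ∃ B : ℝ, 0 ≤ B ∧ ∀ z z' : ℂ, |φ z - φ z'| ≤ B * ‖z - z'‖ := by
    obtain ⟨B, hB⟩ := (hφ.test.smooth.continuous_iteratedFDeriv (m := 1)
      (by simp)).bounded_above_of_compact_support (hφ.test.cpt.iteratedFDeriv 1)
    exact ⟨B, (norm_nonneg _).trans (hB 0), fun z z' => lip hφ.test.smooth hB z z'⟩
  refine ⟨min (min e₀ e₀') (om / (B * Y + 1)), lt_min (lt_min he₀ he₀') (by positivity),
    fun e he hee => ?_⟩
  have hee₀ : e ≤ e₀ := (hee.trans (min_le_left _ _)).trans (min_le_left _ _)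
  have hee₀' : e ≤ e₀' := (hee.trans (min_le_left _ _)).trans (min_le_right _ _)
  have heom : B * (e * Y) ≤ om := by
    have h3 : e ≤ om / (B * Y + 1) := hee.trans (min_le_right _ _)
    have h4 : 0 ≤ B * Y := by positivity
    rw [le_div_iff₀ (by linarith)] at h3
    nlinarith
  have hK := hKer e he
  have hk0 : ∀ u, 0 ≤ sk e u := hK.nonneg
  have ht : ∀ z : ℍ, (z : ℂ) ∈ K₁ → TestR H0 (hk (sk e) z) ∧ tsupport (hk (sk e) z) ⊆ K₀ := by
    intro z hz
    obtain ⟨a1, a2, _⟩ := h1 e he hee₀ z hz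
    exact ⟨⟨a1, hK₀.of_isClosed_subset (isClosed_tsupport _) a2, a2.trans hK₀H⟩, a2⟩
  have hz0 : ∀ z : ℍ, (z : ℂ) ∈ K₁ → ∀ w : ℍ, (w : ℂ) ∉ K₀ → sk e (uh z w) = 0 := by
    intro z hz w hw
    rw [← hk_coe (sk e)]
    exact image_eq_zero_of_notMem_tsupport fun h => hw ((ht z hz).2 h)
  set L : ℝ := C' * e⁻¹ ^ 8 with hL
  have hL0 : 0 ≤ L := by positivity
  have hl : ∀ w : ℍ, (w : ℂ) ∈ K₀ → ∀ z z' : ℂ,
      |hk (sk e) w z - hk (sk e) w z'| ≤ L * ‖z - z'‖ := by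
    intro w hw z z'
    obtain ⟨a1, _, a3⟩ := h2 e he hee₀' w hw
    exact lip a1 (fun x => a3 1 (by norm_num) x) z z'
  have hζone : ∀ z ∈ K₀, ζ z = 1 := fun z hz => hζ1.self_of_nhdsSet z hz
  have hloc := loc hρ
  -- the masses are bounded
  have hMρ : 0 ≤ ∫ w : ℍ, ζ w * ρ w := integral_nonneg fun w => mul_nonneg (hζ01 _).1 (hρ.nonneg w)
  set M : ℝ := (∫ w : ℍ, ζ w * ρ w) + 1 with hM
  have hM0 : 0 < M := by linarith
  have hmass : ∀ᶠ i in atTop, ∫ w : ℍ, ζ w * S i w ≤ M :=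
    (hW ζ hζ).eventually_le_const (lt_add_one _)
  -- pointwise convergence
  have hpt : ∀ z : ℍ, (z : ℂ) ∈ K₁ → Tendsto (fun i => gk e (S i) z) atTop (𝓝 (gk e ρ z)) := by
    intro z hz
    have h3 := hW _ (ht z hz).1
    have h4 : ∀ F : ℍ → ℝ, ∫ w : ℍ, hk (sk e) z w * F w = gk e F z := by
      intro F
      exact integral_congr_ae (Eventually.of_forall fun w => by
        change hk (sk e) z (w : ℂ) * F w = sk e (uh z w) * F w
        rw [hk_coe])
    rw [h4 ρ] at h3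
    exact h3.congr fun i => h4 (S i)
  -- uniform convergence
  have hφρ : 0 ≤ ∫ w : ℍ, φ w * ρ w :=
    integral_nonneg fun w => mul_nonneg (hφ.nonneg _) (hρ.nonneg w)
  set ε : ℝ := δ / (4 * ((∫ w : ℍ, φ w * ρ w) + 1)) with hε
  have hε0 : 0 < ε := by positivity
  have hunif : ∀ᶠ i in atTop, ∀ z : ℍ, (z : ℂ) ∈ K₁ → |gk e (S i) z - gk e ρ z| ≤ ε := by
    refine unif hK₁c hφ.test.sub (B := L * M) (by positivity) ?_ ?_ hpt hε0
    · filter_upwards [hmass] with i hi z z' hz hz'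
      refine (gk_lip (hS i).locallyIntegrable (hS0 i) hζ (fun z => (hζ01 z).1) hζone hL0 ht hl
        hz hz').trans ?_
      calc L * ‖(z : ℂ) - z'‖ * ∫ w : ℍ, ζ w * S i w ≤ L * ‖(z : ℂ) - z'‖ * M :=
            mul_le_mul_of_nonneg_left hi (by positivity)
        _ = L * M * ‖(z : ℂ) - z'‖ := by ring
    · intro z z' hz hz'
      refine (gk_lip hloc hρ.nonneg hζ (fun z => (hζ01 z).1) hζone hL0 ht hl hz hz').trans ?_
      calc L * ‖(z : ℂ) - z'‖ * ∫ w : ℍ, ζ w * ρ w ≤ L * ‖(z : ℂ) - z'‖ * M :=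
            mul_le_mul_of_nonneg_left (by linarith) (by positivity)
        _ = L * M * ‖(z : ℂ) - z'‖ := by ring
  have hg0 : ∀ z, 0 ≤ gk e ρ z := fun z =>
    integral_nonneg fun w => mul_nonneg (hk0 _) (hρ.nonneg w)
  have hc : Continuous (fun z : ℍ => φ z * gk e ρ z) := cont_h hρ hφ hK hK₀ hK₀H hz0
  have hs : HasCompactSupport (fun z : ℍ => φ z * gk e ρ z) := (test_c hφ.test).2.mul_right
  -- the main inequality
  have hdom : ∀ z w : ℍ, φ z * sk e (uh z w) ≤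
      (φ w + D.indicator (fun _ => om) w) * sk e (uh z w) := by
    intro z w
    have hind : 0 ≤ D.indicator (fun _ => om) w := indicator_nonneg (fun _ _ => hom0.le) w
    by_cases hz : (z : ℂ) ∈ K₁
    · by_cases hw : (w : ℂ) ∈ K₀
      · by_cases hu : e ^ 2 ≤ uh z w
        · rw [hK.supp _ hu, mul_zero, mul_zero]
        · rw [not_le] at hu
          refine mul_le_mul_of_nonneg_right ?_ (hk0 _)
          rw [indicator_of_mem (show w ∈ D from hw)]
          have h3 := hB z w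
          have h4 : ‖(z : ℂ) - w‖ ≤ e * Y := by
            have h5 : ‖(z : ℂ) - w‖ ^ 2 < e ^ 2 * (z.im * w.im) := by
              unfold uh at hu
              rwa [div_lt_iff₀ (mul_pos z.im_pos w.im_pos)] at hu
            have h6 : z.im ≤ Y := hY z (Or.inl hz)
            have h7 : w.im ≤ Y := hY w (Or.inr hw)
            have h8 : z.im * w.im ≤ Y ^ 2 := by
              rw [_root_.sq]
              exact mul_le_mul h6 h7 w.im_pos.le hY0
            have h9 : ‖(z : ℂ) - w‖ ^ 2 ≤ (e * Y) ^ 2 := by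
              rw [mul_pow]
              exact h5.le.trans (mul_le_mul_of_nonneg_left h8 (by positivity))
            exact le_of_sq_le_sq h9 (by positivity)
          have h5 : B * ‖(z : ℂ) - w‖ ≤ om := (mul_le_mul_of_nonneg_left h4 hB0).trans heom
          have h6 := (abs_le.1 (h3.trans h5)).2
          linarith
      · rw [hz0 z hz w hw, mul_zero, mul_zero]
    · rw [image_eq_zero_of_notMem_tsupport hz, zero_mul]
      exact mul_nonneg (add_nonneg (hφ.nonneg _) hind) (hk0 _)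
  have hmain := main_ineq hAr hρ hφ hK hK₀ hK₀H hom0.le (fun z hz => (ht z hz).1) hdom hc
  filter_upwards [hunif, weak hApx hS hS0 hloc hρ.nonneg hW hc hs (show 0 < δ / 4 by positivity),
    (hW φ hφ.test).eventually_le_const (lt_add_one _)] with i hi1 hi2 hi3
  refine (V2_up (hS i) (hS0 i) hφ hk0 hε0.le hg0 hc (fun z hz => (ht z hz).1)
    (fun z hz => ?_)).trans (ENNReal.ofReal_le_ofReal ?_)
  · have h3 := (abs_le.1 (hi1 z hz)).2
    linarith
  · have h3 : ε * ∫ z : ℍ, φ z * S i z ≤ δ / 4 := by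
      calc ε * ∫ z : ℍ, φ z * S i z ≤ ε * ((∫ w : ℍ, φ w * ρ w) + 1) :=
            mul_le_mul_of_nonneg_left hi3 hε0.le
        _ = δ / 4 := by
            rw [hε]
            field_simp
    linarith

end

end Pool.Agent.A54.HR
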