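import Pool.Agent.Lib.HS.Top
import Pool.Agent.Lib.HS.R.Fin
import Pool.Agent.Lib.HS.R.Cmp
import Pool.Agent.Lib.HS.R.Apx
import Pool.Agent.Lib.HS.R.V2u
import Pool.Agent.Lib.HS.R.Upr
import Pool.Agent.Lib.HS.R.Fou
import Pool.Agent.Lib.HS.R.Srf
import Pool.Agent.Lib.HS.R.Low
import Pool.Agent.Lib.MP_a54f13_nt.Sq.Tf
import Pool.Agent.Lib.MP_a54f13_nt.Ef.Main

/-!
# Package `HS/R`: the final forms

helper39. `AllA f t`: everything that is proved along a sequence of forms to which the counting bound applies.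
-/

set_option autoImplicit false

namespace Pool.Agent.A54.HR

open MeasureTheory Filter Topology Set
open scoped ContDiff ComplexConjugate UpperHalfPlane MatrixGroups ENNReal
open Pool.Agent.A54.Half (H0)
open Pool.Agent.A54.Sq (TestP)
open Pool.Agent.A54.Hp

noncomputable section

theorem pV2u : StmtV2u := stmtV2u pAr stmtSk stmtApx
theorem pUpr : StmtUpr := stmtUpr pTwG stmtLh pPv pSt1 pSt2 pDif pXb pMsW pV2u
theorem pFou : StmtFou := stmtFou Sq.pTwr Sq.pSg stmtInt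
theorem pLow : StmtLow := stmtLow pLocGen (stmtComp pL4) pIneq Dyn.pNAf stmtInt stmtLap

/-- bounded fourth moments; the first four moments along subsequences, with a density; equivalence of the cases
`n = 2`, `n = 4`, `n ≤ 4` and of equidistribution on small balls -/
def AllA (f : ℕ → ℍ → ℝ) (t : ℕ → ℝ) : Prop :=
  (∀ D : Set ℍ, IsCompact D → ∃ C : ℝ, ∀ i, ∫ z in D, f i z ^ 4 ≤ C) ∧
  (∀ τ : ℕ → ℕ, StrictMono τ → ∃ (σ : ℕ → ℕ) (ρ : ℍ → ℝ), StrictMono σ ∧ Measurable ρ ∧ (∀ z, 0 ≤ ρ z) ∧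
    (∀ D : Set ℍ, IsCompact D → IntegrableOn (fun z => ρ z ^ 2) D) ∧
    ∀ ψ : ℍ → ℝ, TestX ψ → ∀ n : ℕ, 1 ≤ n → n ≤ 4 →
      Tendsto (fun i => ∫ z in ModularGroup.fdo, ψ z * f (τ (σ i)) z ^ n) atTop
        (𝓝 (1 / √(2 * Real.pi) * (∫ x : ℝ, x ^ n * Real.exp (-x ^ 2 / 2)) *
          ∫ z in ModularGroup.fdo, ψ z * √(ρ z) ^ n))) ∧
  List.TFAE [
    (∀ ψ : ℍ → ℝ, TestX ψ → Tendsto (fun i => ∫ z in ModularGroup.fdo, ψ z * f i z ^ 2) atTop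
      (𝓝 (∫ z in ModularGroup.fdo, ψ z))),
    (∀ ψ : ℍ → ℝ, TestX ψ → Tendsto (fun i => ∫ z in ModularGroup.fdo, ψ z * f i z ^ 4) atTop
      (𝓝 (3 * ∫ z in ModularGroup.fdo, ψ z))),
    (∀ ψ : ℍ → ℝ, TestX ψ → ∀ n : ℕ, 1 ≤ n → n ≤ 4 →
      Tendsto (fun i => ∫ z in ModularGroup.fdo, ψ z * f i z ^ n) atTop
        (𝓝 (1 / √(2 * Real.pi) * (∫ x : ℝ, x ^ n * Real.exp (-x ^ 2 / 2)) *
          ∫ z in ModularGroup.fdo, ψ z))),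
    (∀ K : Set ℍ, IsCompact K → ∀ r : ℕ → ℝ, (∀ i, 0 < r i) → Tendsto r atTop (𝓝 0) →
      Tendsto (fun i => r i * t i) atTop atTop →
        Tendsto (fun i => ∫ z in K, ((⨍ w in Metric.ball z (r i), f i w ^ 2) - 1) ^ 2)
          atTop (𝓝 0)),
    (∀ K : Set ℍ, IsCompact K → ∀ ε : ℝ, 0 < ε → ∃ R : ℝ, 0 < R ∧ ∀ᶠ i in atTop,
      ∫ z in K, ((⨍ w in Metric.ball z (R / t i), f i w ^ 2) - 1) ^ 2 ≤ ε),
    (∃ (δ : ℝ) (r : ℕ → ℝ), 0 < δ ∧ (∀ i, 0 < r i ∧ r i ≤ t i ^ (-(1 / 2 + δ))) ∧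
      ∀ K : Set ℍ, IsCompact K →
        Tendsto (fun i => ∫ z in K, ((⨍ w in Metric.ball z (r i), f i w ^ 2) - 1) ^ 2)
          atTop (𝓝 0))]

/-- the conclusions, in terms of an abstract condition on the eigenvalues -/
theorem coreAll {c : ℝ} (hc : 0 < c) (hc1 : c ≤ 1)
    {Gh : (ℕ → ℝ) → ℝ → Prop} (hC : CoreC c Gh) (f : ℕ → ℍ → ℝ) (t : ℕ → ℝ) (l : ℕ → ℕ → ℝ)
    (hf : ∀ i, IsHeckeMaass (f i) (t i)) (ht : Tendsto t atTop atTop)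
    (hl : ∀ i, ∀ p : ℕ, p.Prime → Av.IsHk (f i) p (√p * l i p))
    (hG : ∃ (W : ℝ) (i₀ : ℕ), 0 < W ∧ ∀ i, i₀ ≤ i → ∀ w : ℝ, t i ^ (-(1 / 2 + c / 1600)) ≤ w →
      w ≤ W → Gh (l i) w) : AllA f t := by
  obtain ⟨h1, h2⟩ := core pPk pHeF Hp.pCus pXb pBdd pL2S pFinF pQx hc hc1 hC f t l hf ht hl hG
  refine ⟨h1, fun τ hτ => ?_, ?_⟩
  · obtain ⟨W, i₀, hW, hG⟩ := hG
    obtain ⟨_, σ, ρ, hσ, hρ, h3⟩ := coreR pPk pHeF Hp.pCus pXb pBdd stmtCmp pUpr pFou pLow stmtSrf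
      hc hc1 hC (fun i => f (τ i)) (fun i => t (τ i)) (fun i => l (τ i)) (fun i => hf _)
      (ht.comp hτ.tendsto_atTop) (fun i => hl _)
      ⟨W, i₀, hW, fun i hi w hw hwW => hG (τ i) (hi.trans (hτ.le_apply)) w hw hwW⟩
    exact ⟨σ, ρ, hσ, hρ.meas, hρ.nonneg, hρ.sq, h3⟩
  · have hp := Sq.tfae hf ht
    tfae_have 1 → 3 := h2
    tfae_have 3 → 2 := fun h ψ hψ => (Sq.condA_of_condG h ψ hψ).2
    tfae_have 2 → 1 := HS.four_two Ef.pCus f t hf ht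
    tfae_have 3 ↔ 4 := hp.out 0 2
    tfae_have 3 ↔ 5 := hp.out 0 3
    tfae_have 3 ↔ 6 := hp.out 0 4
    tfae_finish

/-- **the theorem for all sequences** -/
theorem allH (h : HS.StmtHS) (f : ℕ → ℍ → ℝ) (t : ℕ → ℝ)
    (hf : ∀ i, IsHeckeMaass (f i) (t i)) (ht : Tendsto t atTop atTop) : AllA f t := by
  obtain ⟨c, hc, hc1, hC⟩ := HS.coreH h
  choose l hl using fun i => HS.exists_eig (hf i)
  exact coreAll hc (hc1.trans (by norm_num)) hC f t l hf ht hl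
    ⟨1, 0, one_pos, fun _ _ _ _ _ => trivial⟩

/-- **THEOREM A'**, with a density -/
theorem allW (f : ℕ → ℍ → ℝ) (t : ℕ → ℝ) (l : ℕ → ℕ → ℝ) (K : ℝ)
    (hf : ∀ i, IsHeckeMaass (f i) (t i)) (ht : Tendsto t atTop atTop)
    (hl : ∀ i, ∀ p : ℕ, p.Prime → Av.IsHk (f i) p (√p * l i p)) (hK : 1 ≤ K)
    (h : ∀ Y : ℕ → ℝ, Tendsto Y atTop atTop → (∀ᶠ i in atTop, Y i ^ K ≤ t i ^ (1 / 1000 : ℝ)) →
      ∀ᶠ i in atTop, ∃ M : ℝ, Y i ≤ M ∧ M ≤ Y i ^ K ∧ GdC (1 / 10000) (l i) M) : AllA f t :=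
  coreAll (c := 1 / 1000) (by norm_num) (by norm_num)
    (coreL pPL pIsU hK) f t l hf ht hl
    (hprK l t (1 / 1000) K (by norm_num) hK ht h)

end

end Pool.Agent.A54.HR
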