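import Pool.Agent.Lib.MP_a54f13_nt.Hp.SpecC
import Pool.Agent.Lib.MP_a54f13_nt.Sq.Spec2
import Pool.Agent.Lib.MP_a54f13_nt.Dyn.Spec3

/-!
# Package `HS/R`: the fourth moment and the limit of the second moment

Architect: helper39. GOAL: for every sequence of Hecke–Maass forms to which the counting bound (`Hp.CoreC`) applies (by `HS/Top`: all sequences), with
NO assumption on the second moment: every subsequence has a further subsequence along which `f_i² dμ → ρ dμ` weakly, `ρ` locally square integrable,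
and then `∫ ψ f_i^n → C_n ∫ ψ ρ^(n/2)`, `n = 1, 2, 3, 4`. (Quantum unique ergodicity says `ρ = 1`.)

CONVENTIONS. Module `X` is the file `Pool/Agent/Lib/HS/R/<Name>.lean` importing `Pool.Agent.Lib.HS.R.Spec` (and models), private names in `namespace
Pool.Agent.A54.HR.<Name>M`, final theorem `Pool.Agent.A54.HR.stmt<Name> : Stmt<Name>`; the used statements are hypotheses of the final theorem. No straight
double quotes anywhere, no `sorry`, no `native_decide`; modules should compile in less than 60 seconds.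
-/

set_option autoImplicit false

namespace Pool.Agent.A54.HR

open MeasureTheory Filter Topology Set
open scoped ContDiff ComplexConjugate UpperHalfPlane MatrixGroups ENNReal
open Pool.Agent.A54.Half (H0)
open Pool.Agent.A54.Sq (TestP)
open Pool.Agent.A54.Hp

noncomputable section

/-- measurable, nonnegative, locally square integrable -/
structure Rho (ρ : ℍ → ℝ) : Prop where
  meas : Measurable ρ
  nonneg : ∀ z, 0 ≤ ρ z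
  sq : ∀ D : Set ℍ, IsCompact D → IntegrableOn (fun z => ρ z ^ 2) D

/-- weak convergence on the half-plane -/
def Wc (F : ℕ → ℍ → ℝ) (ρ : ℍ → ℝ) : Prop := ∀ φ : ℂ → ℝ, TestR H0 φ →
  Tendsto (fun i => ∫ z : ℍ, φ z * F i z) atTop (𝓝 (∫ z : ℍ, φ z * ρ z))

/-- **Cmp** weak compactness (model: `Comp.lean`, `Comp.exists_subseq`, `Comp.exists_exhaustion`, `Comp.exists_weight`). Proof. `ℍ` is `σ`-compact: compact `K_j` with interiors exhausting `ℍ`,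
`∫_{K_j} F_i² ≤ C_j`. A measurable weight `0 < w ≤ 1`, `w ≥ c_j > 0` on `K_j`, with `∫ w² F_i² ≤ 1` for all `i` (on `K_{j} ∖ K_{j-1}`: `w = c_j`, `c_j² C_j ≤ 2^{-j-1}`, `c_j` decreasing). The functions
`w F_i` are in the unit ball of `L²(ℍ)` (`Lp ℂ 2 (volume : Measure ℍ)`, separable); `exists_subseq`: `w F_{σ i} → y` weakly. `ρ₀ = Re y / w`; for measurable bounded `v` with compact support `v / w ∈ L²`, so
`∫ v F_{σ i} → ∫ v ρ₀`. With `v` the indicator of `{ρ₀ < 0} ∩ K_j`: `ρ₀ ≥ 0` almost everywhere. `ρ = max ρ₀' 0` with a measurable version `ρ₀'`. -/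
def StmtCmp : Prop := ∀ F : ℕ → ℍ → ℝ, (∀ i, Continuous (F i)) → (∀ i z, 0 ≤ F i z) →
  (∀ D : Set ℍ, IsCompact D → ∃ C : ℝ, ∀ i, ∫ z in D, F i z ^ 2 ≤ C) →
  ∃ (σ : ℕ → ℕ) (ρ : ℍ → ℝ), StrictMono σ ∧ Rho ρ ∧ Wc (fun i => F (σ i)) ρ

/-- **Apx** approximation of continuous functions. Proof. The extension `h'` of `h` by zero to `ℂ` is continuous with compact support `K ⊆ H0`. Let `δ₀ > 0` be such that the closed `δ₀`-neighbourhood `K'` of `K` is in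
`H0` (compact), `ζ` a cutoff function with `ζ = 1` near `K'` (`exists_cutoff`). `φ = (normed bump function of radius δ) ⋆ h'` with `δ ≤ δ₀` from the uniform continuity of `h'`
(`HasCompactSupport.contDiff_convolution_left`, `ContDiffBump.dist_normed_convolution_le`); `|h' - φ| ≤ ε` everywhere and both vanish outside `K'`. -/
def StmtApx : Prop := ∀ h : ℍ → ℝ, Continuous h → HasCompactSupport h →
  ∃ ζ : ℂ → ℝ, TestP H0 ζ ∧ ∀ ε : ℝ, 0 < ε → ∃ φ : ℂ → ℝ, TestR H0 φ ∧ ∀ z : ℍ, |h z - φ z| ≤ ε * ζ z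

/-- **V2u** fixed scales (uses `Ar`, `Sk`, `Apx`; model: `Hp/Vfx.lean`). Proof. `g_i(z) = ∫ sk e (uh z w) S_i(w)`, `g(z) = ∫ sk e (uh z w) ρ(w)`. As in `Vfx` (with `1` replaced by `g(z)`): for `z ∈ tsupport φ` the function
`hk (sk e) z` is in `TestR H0` (`Sk`), so `g_i(z) → g(z)`; the masses `∫ ζ S_i` are bounded (they converge), the kernel is Lipschitz in `z`, so the `g_i` and `g` are equi-Lipschitz on `tsupport φ` and `g_i → g` uniformly there (finite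
cover). So `V2 φ (sk e) S_i S_i = ofReal ∫ φ g_i S_i ≤ ofReal (∫ φ g S_i + ε' ∫ φ S_i)`. `φ g` is continuous with compact support (`φ g` is Lipschitz near `tsupport φ`: use a neighbourhood of `tsupport φ` in place of `tsupport φ`), so by `Apx` and
the bounded masses `∫ φ g S_i → ∫ φ g ρ`. Finally `2 ∫ φ g ρ = 2 ∫∫ φ(z) sk e (uh z w) ρ(z) ρ(w) ≤ ∫ φ(z) ρ(z)² (∫ sk e (uh z w) dw) dz + ∫ ρ(w)² (∫ φ(z) sk e (uh z w) dz) dw`; the first inner integral is `1`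
(`VfxM.one_of_ker`), the second is at most `φ(w) + ω(e) 1_D(w)`, `ω(e) → 0` (`φ` is uniformly continuous, `sk e (uh z w) = 0` for `uh z w ≥ e²`, `D` a fixed compact neighbourhood of the support): at most
`2 ∫ φ ρ² + ω(e) ∫_D ρ²`. Choose `e₀` with `ω(e) ∫_D ρ² ≤ δ` for `e ≤ e₀`, then `ε'` small. -/
def StmtV2u : Prop := ∀ (S : ℕ → ℍ → ℝ) (ρ : ℍ → ℝ), (∀ i, Continuous (S i)) → (∀ i z, 0 ≤ S i z) →
  Rho ρ → Wc S ρ → ∀ φ : ℂ → ℝ, TestP H0 φ → ∀ δ : ℝ, 0 < δ → ∃ e₀ : ℝ, 0 < e₀ ∧ ∀ e : ℝ, 0 < e → e ≤ e₀ →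
    ∀ᶠ i in atTop, V2 φ (sk e) (S i) (S i) ≤ ENNReal.ofReal ((∫ z : ℍ, φ z * ρ z ^ 2) + δ)

/-- **Upr** the local masses (uses `TwG`, `Lh`, `Pv`, `St1`, `St2`, `Dif`, `Xb`, `MsW`, `V2u`; model: `Hp/L2S.lean`, whose lemmas can be used). Proof. `Wc` for `S_i = Sb (f i) (t i) (N i) (b i)`: `MsW` and `N/t → 0` (`L2SM.massH`). As in `L2SM.upper` with `V2u` in place of `Vfx` (for the weight
`φ y²`): `∫ φ (Ed Spl)² ≤ ∫_ℍ φ y² ρ² + δ`. `Dif` and `Xb` (with `η = c/1600`): `∫ φ (Ed f_i² - Ed Spl)² → 0`; `(a)² ≤ (1 + κ) b² + (1 + κ⁻¹) (a - b)²`. -/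
def StmtUpr : Prop := ∀ c : ℝ, 0 < c → c ≤ 1 → ∃ K₀ : ℕ, ∀ K : ℕ, K₀ ≤ K → ∀ C₀ : ℝ, 0 ≤ C₀ →
  ∀ v : ℝ → ℝ, (∀ R, 0 < v R) → ∀ (l : ℕ → ℕ → ℝ) (f : ℕ → ℍ → ℝ) (t : ℕ → ℝ) (N : ℕ → ℕ)
    (b : ℕ → ℤ → ℝ), (∀ i, Dt c v C₀ K (l i) (f i) (t i) (N i) (b i)) → Tendsto t atTop atTop →
    ∀ ρ : ℍ → ℝ, Rho ρ → Wc (fun i z => f i z ^ 2) ρ → ∀ φ : ℂ → ℝ, TestP H0 φ → ∀ δ : ℝ, 0 < δ →
      ∀ᶠ i in atTop, ∫ z : ℂ, φ z * (Pl.Ed (rh c (t i)) (fun w => ext (f i) w ^ 2) z) ^ 2 ≤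
        (∫ z : ℍ, (φ z * (z : ℂ).im ^ 2) * ρ z ^ 2) + δ

/-- **Fou** upper bound for the fourth moment (uses `Sq.StmtTwr`, `Sq.StmtSg`, `StmtInt`; model: `Sq/SgH.lean`, `Hp/Bdd.lean`). Proof. `φ₁ = φ y⁻²`, `χ, V` from `Half.setup`, tower from `Twr`, `Sg` for `φ₁` with `min δ₀ (1/2)`:
`∫_ℍ φ f_i⁴ = ∫ φ₁ |G_0|⁴ ≤ 3 ∫ φ₁ (Ed f_i²)² + C t_i^(-κ) (1 + ∫ ζ (Ed f_i²)²)` for large `i` (`r_i → 0`: the discs are in `V`); the hypothesis for `φ₁` and `ζ`. -/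
def StmtFou : Prop := ∀ (f : ℕ → ℍ → ℝ) (t r : ℕ → ℝ) (δ₀ : ℝ), (∀ i, IsHeckeMaass (f i) (t i)) →
  Tendsto t atTop atTop → 0 < δ₀ → (∀ i, 0 < r i ∧ r i ≤ t i ^ (-(1 / 2 + δ₀))) → ∀ ρ : ℍ → ℝ, Rho ρ →
  (∀ φ : ℂ → ℝ, TestP H0 φ → ∀ δ : ℝ, 0 < δ → ∀ᶠ i in atTop,
    ∫ z : ℂ, φ z * (Pl.Ed (r i) (fun w => ext (f i) w ^ 2) z) ^ 2 ≤
      (∫ z : ℍ, (φ z * (z : ℂ).im ^ 2) * ρ z ^ 2) + δ) →
  ∀ φ : ℂ → ℝ, TestP H0 φ → ∀ δ : ℝ, 0 < δ → ∀ᶠ i in atTop,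
    ∫ z : ℍ, φ z * f i z ^ 4 ≤ 3 * (∫ z : ℍ, φ z * ρ z ^ 2) + δ

/-- **Low** lower bound for the fourth moment (uses `StmtLocGen`, `StmtComp`, `StmtIneq`, `Dyn.StmtNAf`, `StmtInt`, `StmtLap`; model: `Dyn/RatioS.lean`, `Dyn/Half3.lean`). Proof. Otherwise `∫_ℍ φ f_i⁴ < 3 ∫ φ ρ² - δ` along a subsequence `τ`
(`extraction_of_frequently_atTop`). `χ, V` from `Half.setup`, `φ₁ = φ y⁻²`; `Half2.seq`, `Half.l4` and `StmtComp` for the forms `f (τ i)`: a further subsequence with weak limits `r` (`Sm`); `Half3M.naloc` and `RatioS`'s lemma `sharp` (with `w = φ₁`):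
`3 ∫ φ₁ (rho r)² - δ/2 ≤ ∫ φ₁ ff⁴ = ∫_ℍ φ f⁴` eventually. The weak limit `r 0` of `ff²` is `ρ` (`ext ρ`) almost everywhere on `V`: for `φ' ∈ TestR V`, `∫_ℂ φ' ff² = ∫_ℍ φ' y² f² → ∫_ℍ φ' y² ρ = ∫_ℂ φ' (ext ρ)` (`Wc`, `Pl.G1M.int_weight`), and
`IsOpen.ae_eq_zero_of_integral_contDiff_smul_eq_zero`. So `∫ φ₁ (rho r)² = ∫_ℍ φ ρ²`: contradiction. -/
def StmtLow : Prop := ∀ (f : ℕ → ℍ → ℝ) (t : ℕ → ℝ), (∀ i, IsHeckeMaass (f i) (t i)) → Tendsto t atTop atTop →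
  (∀ D : Set ℍ, IsCompact D → ∃ C : ℝ, ∀ i, ∫ z in D, f i z ^ 4 ≤ C) → ∀ ρ : ℍ → ℝ, Rho ρ →
  Wc (fun i z => f i z ^ 2) ρ → ∀ φ : ℂ → ℝ, TestP H0 φ → ∀ δ : ℝ, 0 < δ → ∀ᶠ i in atTop,
    3 * (∫ z : ℍ, φ z * ρ z ^ 2) - δ ≤ ∫ z : ℍ, φ z * f i z ^ 4

/-- **Srf** from the half-plane to the modular surface (model: `Pl/U2.lean`). Proof. `|ψ| ≤ B` on `fd`, `ψ = 0` on `fd` above `Y`. `D` = support of a fixed cutoff function `ζ₀ ∈ TestR H0`, `ζ₀ = 1` on `truncatedFundamentalDomain Y`. Let `ε > 0`. Absolute continuity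
(`MeasureTheory.exists_pos_setLIntegral_lt_of_measure_lt` or `Integrable` version): `η > 0` with `∫_A G < ε` for measurable `A ⊆ D`, `vol A ≤ η`. `Pl.U2M.cutoffs Y` with `η²`: `χ, ζ` with `∫ ζ (1 - χ) ≤ η²`; replace `ζ` by `ζ ζ₀`. The set `A = {ζ ζ₀ (1 - χ) > η} ` has
`vol A ≤ η`, so `∫ ζ ζ₀ (1 - χ) G ≤ ∫_A G + η ∫_D G ≤ ε + η ∫_D G`. Then as in `U2`: `|∫_fdo ψ F_i - ∫ χ ψ F_i| ≤ B ∫ ζ ζ₀ (1 - χ) F_i → B ∫ ζ ζ₀ (1 - χ) G`, the same for `G`, and `χ ψ ∈ TestR H0` (`X.testR_cut`, `X.integral_cut`). -/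
def StmtSrf : Prop := ∀ (F : ℕ → ℍ → ℝ) (G : ℍ → ℝ), (∀ i, Continuous (F i)) → (∀ i z, 0 ≤ F i z) → Measurable G →
  (∀ z, 0 ≤ G z) → (∀ D : Set ℍ, IsCompact D → IntegrableOn G D) → Wc F G →
  ∀ ψ : ℍ → ℝ, TestX ψ → Tendsto (fun i => ∫ z in ModularGroup.fdo, ψ z * F i z) atTop
    (𝓝 (∫ z in ModularGroup.fdo, ψ z * G z))

end

end Pool.Agent.A54.HR
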